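import Pool.Agent.Q97.UM.Base10

set_option autoImplicit false

/-!
# Blocks of primes: points at which no block is large, and the truncated exponential there
-/

open Filter Topology MeasureTheory Complex
open Pool.Agent.Q97.UM

namespace Run7.h311.CM

open Pool.Agent.Q14.UM (KB' dp_qb sum_zj KB_le KB_one qb_len cv_len exp_neg_le exp_neg_mul_nat geo_le)
open Pool.Agent.Q98.UM (EP_PA S3 S3_nonneg)

lemma R9_ge (κ : ℝ) (j : ℕ) : κ * Real.exp (9 / 10 * (j : ℝ)) ≤ (R9 κ j : ℝ) := Nat.le_ceil _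

lemma zf_eq (D : ℝ) (a a2 : ℕ → ℂ) (l : ℕ) (t : ℝ) : zf D a a2 l t = dp (KB' D l) (qb D a a2 l) t := rfl

/-- the blocks, against the squares of the degrees -/
theorem blk_sum : ∃ C : ℝ, 1 ≤ C ∧ ∀ (κ D : ℝ) (a a2 f : ℕ → ℂ) (M J : ℕ), 1 ≤ κ → 1 ≤ D →
    (∀ n, ‖a n‖ ≤ 1) → (∀ n, ‖a2 n‖ ≤ 1) → 1 ≤ M → Real.log M ≤ 28 * κ * D → (∀ n, M < n → f n = 0) →
    ∑ l ∈ Finset.range J, 1 / (R9 κ l : ℝ) ^ 2 * N2 (KB' D l * M) (cv (qb D a a2 l) f) ≤ C / κ * N2 M f := by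
  obtain ⟨C, hC, h⟩ := Pool.Agent.Q14.UM.t_QM Pool.Agent.Q198.UM.t_BM
  refine ⟨68 * C, by linarith, fun κ D a a2 f M J hκ hD ha ha2 hM hlog hf => ?_⟩
  have hD0 : 0 ≤ D := by linarith
  have hDp : 0 < D := by linarith
  have hκ0 : 0 < κ := by linarith
  have hN := N2_nonneg M f
  have h1 : ∀ l ∈ Finset.range J, 1 / (R9 κ l : ℝ) ^ 2 * N2 (KB' D l * M) (cv (qb D a a2 l) f) ≤
      30 * C / κ * (5 / 9 : ℝ) ^ l * N2 M f := by
    intro l _
    have h2 := h D 1 l (KB' D l) M a a2 f hD zero_le_one hM le_rfl ha ha2 hf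
    have h3 : Real.log ((KB' D l : ℕ) * (M : ℕ) : ℝ) ≤ 30 * κ * D := by
      have hk1 : (1 : ℝ) ≤ (KB' D l : ℝ) := by exact_mod_cast KB_one D l hD0
      have hm1 : (1 : ℝ) ≤ (M : ℝ) := by exact_mod_cast hM
      rw [Real.log_mul (by positivity) (by positivity)]
      have h4 : Real.log (KB' D l : ℝ) ≤ 2 * D := by
        rw [Real.log_le_iff_le_exp (by linarith)]
        refine (KB_le D l).trans (Real.exp_le_exp.2 ?_)
        have : Real.exp (-(l : ℝ)) ≤ 1 := Real.exp_le_one_iff.2 (by simp)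
        nlinarith
      nlinarith
    have hR := R9_ge κ l
    have hE : 0 < Real.exp (9 / 10 * (l : ℝ)) := Real.exp_pos _
    have hR0 : 0 < κ * Real.exp (9 / 10 * (l : ℝ)) := by positivity
    have h5 : 1 / (R9 κ l : ℝ) ^ 2 ≤ 1 / (κ * Real.exp (9 / 10 * (l : ℝ))) ^ 2 :=
      one_div_le_one_div_of_le (by positivity) (pow_le_pow_left₀ hR0.le hR 2)
    have h6 : 1 / (κ * Real.exp (9 / 10 * (l : ℝ))) ^ 2 * (Real.exp (l : ℝ) * (30 * κ)) ≤
        30 / κ * (5 / 9 : ℝ) ^ l := by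
      have e1 : 1 / (κ * Real.exp (9 / 10 * (l : ℝ))) ^ 2 * (Real.exp (l : ℝ) * (30 * κ)) =
          30 / κ * Real.exp (-(4 / 5 * (l : ℝ))) := by
        have e2 : Real.exp (9 / 10 * (l : ℝ)) ^ 2 = Real.exp (l : ℝ) * Real.exp (4 / 5 * (l : ℝ)) := by
          rw [← Real.exp_nat_mul, ← Real.exp_add]
          congr 1
          push_cast
          ring
        rw [mul_pow, e2, Real.exp_neg]
        field_simp
      rw [e1]
      refine mul_le_mul_of_nonneg_left ?_ (by positivity)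
      apply exp_neg_mul_nat
      have := exp_neg_le (4 / 5) (by norm_num)
      norm_num at this ⊢
      exact this
    have hC0 : 0 ≤ C := by linarith
    calc 1 / (R9 κ l : ℝ) ^ 2 * N2 (KB' D l * M) (cv (qb D a a2 l) f)
        ≤ 1 / (R9 κ l : ℝ) ^ 2 * (C * 1 ^ 2 * (Real.exp (l : ℝ) * Real.log ((KB' D l : ℕ) * (M : ℕ) : ℝ) / D) *
            N2 M f) := mul_le_mul_of_nonneg_left h2 (by positivity)
      _ ≤ 1 / (κ * Real.exp (9 / 10 * (l : ℝ))) ^ 2 * (C * 1 ^ 2 * (Real.exp (l : ℝ) * (30 * κ)) * N2 M f) := by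
          have h7 : Real.exp (l : ℝ) * Real.log ((KB' D l : ℕ) * (M : ℕ) : ℝ) / D ≤
              Real.exp (l : ℝ) * (30 * κ) := by
            rw [div_le_iff₀ hDp, mul_assoc]
            refine mul_le_mul_of_nonneg_left ?_ (Real.exp_pos _).le
            linarith
          have h8 : 0 ≤ Real.log ((KB' D l : ℕ) * (M : ℕ) : ℝ) := by
            apply Real.log_nonneg
            have hk1 : (1 : ℝ) ≤ (KB' D l : ℝ) := by exact_mod_cast KB_one D l hD0
            have hm1 : (1 : ℝ) ≤ (M : ℝ) := by exact_mod_cast hM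
            nlinarith
          have h9 : 0 ≤ C * 1 ^ 2 * (Real.exp (l : ℝ) * Real.log ((KB' D l : ℕ) * (M : ℕ) : ℝ) / D) * N2 M f := by
            positivity
          refine mul_le_mul h5 ?_ h9 (by positivity)
          gcongr
      _ = C * (1 / (κ * Real.exp (9 / 10 * (l : ℝ))) ^ 2 * (Real.exp (l : ℝ) * (30 * κ))) * N2 M f := by ring
      _ ≤ C * (30 / κ * (5 / 9 : ℝ) ^ l) * N2 M f := by gcongr
      _ = _ := by ring
  refine (Finset.sum_le_sum h1).trans ?_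
  rw [← Finset.sum_mul, ← Finset.mul_sum]
  have h5 := geo_le (5 / 9) (by norm_num) (by norm_num) J
  have h6 : ∑ j ∈ Finset.range J, (5 / 9 : ℝ) ^ j ≤ 9 / 4 := h5.trans (by norm_num)
  refine mul_le_mul_of_nonneg_right ?_ hN
  calc 30 * C / κ * ∑ j ∈ Finset.range J, (5 / 9 : ℝ) ^ j ≤ 30 * C / κ * (9 / 4) :=
        mul_le_mul_of_nonneg_left h6 (by positivity)
    _ = 67.5 * C / κ := by ring
    _ ≤ 68 * C / κ := by
        refine div_le_div_of_nonneg_right ?_ hκ0.le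
        linarith

lemma prod_one_sub (x : ℕ → ℝ) (h0 : ∀ l, 0 ≤ x l) (h1 : ∀ l, x l ≤ 1) (J : ℕ) :
    1 - ∑ l ∈ Finset.range J, x l ≤ ∏ l ∈ Finset.range J, (1 - x l) := by
  induction J with
  | zero => simp
  | succ J ih =>
    rw [Finset.sum_range_succ, Finset.prod_range_succ]
    have hp : ∏ l ∈ Finset.range J, (1 - x l) ≤ 1 :=
      Finset.prod_le_one (fun l _ => by linarith [h1 l]) fun l _ => by linarith [h0 l]
    have h2 := h0 J
    nlinarith

lemma prod_one_add (x : ℕ → ℝ) (h0 : ∀ l, 0 ≤ x l) (J : ℕ) :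
    ∏ l ∈ Finset.range J, (1 + x l) ≤ Real.exp (∑ l ∈ Finset.range J, x l) := by
  rw [Real.exp_sum]
  refine Finset.prod_le_prod (fun l _ => by linarith [h0 l]) fun l _ => ?_
  linarith [Real.add_one_le_exp (x l)]

/-- if no block is large, the product of the truncated exponentials is the exponential -/
theorem ef_two {κ D : ℝ} (hκ : 4 ≤ κ) {a a2 : ℕ → ℂ} {t : ℝ}
    (h : ∀ l < JB D, ‖zf D a a2 l t‖ ≤ R9 κ l / 10) :
    1 / 2 * Real.exp (∑ l ∈ Finset.range (JB D), (zf D a a2 l t).re) ≤ ‖Ef D κ a a2 0 t‖ ∧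
      ‖Ef D κ a a2 0 t‖ ≤ 2 * Real.exp (∑ l ∈ Finset.range (JB D), (zf D a a2 l t).re) := by
  set x : ℕ → ℝ := fun l => Real.exp (-(R9 κ l : ℝ) / 2) with hx
  have hx0 : ∀ l, 0 ≤ x l := fun l => (Real.exp_pos _).le
  have hR : ∀ l : ℕ, 4 + 3 * (l : ℝ) ≤ (R9 κ l : ℝ) := by
    intro l
    refine le_trans ?_ (R9_ge κ l)
    have h1 : 1 + 9 / 10 * (l : ℝ) ≤ Real.exp (9 / 10 * (l : ℝ)) := by
      linarith [Real.add_one_le_exp (9 / 10 * (l : ℝ))]
    have h2 : (0 : ℝ) ≤ l := Nat.cast_nonneg _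
    nlinarith
  have hxl : ∀ l, x l ≤ 1 / 5 * (2 / 5 : ℝ) ^ l := by
    intro l
    have h1 : x l ≤ Real.exp (-2) * Real.exp (-(3 / 2 * (l : ℝ))) := by
      rw [← Real.exp_add]
      refine Real.exp_le_exp.2 ?_
      linarith [hR l]
    have h2 : Real.exp (-2) ≤ 1 / 5 := by
      have := Real.exp_neg_one_lt_d9
      have e : Real.exp (-2) = Real.exp (-1) ^ 2 := by rw [← Real.exp_nat_mul]; norm_num
      rw [e]
      have h0 := (Real.exp_pos (-1)).le
      nlinarith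
    have h3 : Real.exp (-(3 / 2 * (l : ℝ))) ≤ (2 / 5 : ℝ) ^ l := by
      apply exp_neg_mul_nat
      have := exp_neg_le (3 / 2) (by norm_num)
      norm_num at this ⊢
      exact this
    calc x l ≤ Real.exp (-2) * Real.exp (-(3 / 2 * (l : ℝ))) := h1
      _ ≤ 1 / 5 * (2 / 5 : ℝ) ^ l := mul_le_mul h2 h3 (Real.exp_pos _).le (by norm_num)
  have hsum : ∑ l ∈ Finset.range (JB D), x l ≤ 1 / 3 := by
    refine (Finset.sum_le_sum fun l _ => hxl l).trans ?_
    rw [← Finset.mul_sum]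
    have h5 := geo_le (2 / 5) (by norm_num) (by norm_num) (JB D)
    have h6 : ∑ j ∈ Finset.range (JB D), (2 / 5 : ℝ) ^ j ≤ 5 / 3 := h5.trans (by norm_num)
    linarith
  have hx1 : ∀ l, x l ≤ 1 := fun l => Real.exp_le_one_iff.2 (by
    have := hR l
    have h2 : (0 : ℝ) ≤ l := Nat.cast_nonneg _
    linarith)
  have key : ∀ l ∈ Finset.range (JB D), (1 - x l) * Real.exp (zf D a a2 l t).re ≤ ‖TEx (R9 κ l) (zf D a a2 l t)‖ ∧
      ‖TEx (R9 κ l) (zf D a a2 l t)‖ ≤ (1 + x l) * Real.exp (zf D a a2 l t).re := by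
    intro l hl
    have h1 : 1 ≤ R9 κ l := by
      have := hR l
      have h2 : (0 : ℝ) ≤ l := Nat.cast_nonneg _
      have h3 : (1 : ℝ) ≤ (R9 κ l : ℝ) := by linarith
      exact_mod_cast h3
    have h2 := (b_TEX (R9 κ l) (zf D a a2 l t) h1).2 (h l (Finset.mem_range.1 hl))
    have h3 : ‖cexp (zf D a a2 l t)‖ = Real.exp (zf D a a2 l t).re := Complex.norm_exp _
    rw [h3] at h2
    have h4 := norm_sub_norm_le (cexp (zf D a a2 l t)) (TEx (R9 κ l) (zf D a a2 l t))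
    have h5 := norm_sub_norm_le (TEx (R9 κ l) (zf D a a2 l t)) (cexp (zf D a a2 l t))
    rw [norm_sub_rev, h3] at h4
    rw [h3] at h5
    have h6 : Real.exp (-(R9 κ l : ℝ) / 2) * Real.exp (zf D a a2 l t).re = x l * Real.exp (zf D a a2 l t).re := rfl
    rw [h6] at h2
    constructor <;> linarith
  have e1 : ‖Ef D κ a a2 0 t‖ = ∏ l ∈ Finset.range (JB D), ‖TEx (R9 κ l) (zf D a a2 l t)‖ := by
    unfold Ef
    rw [norm_prod, Finset.range_eq_Ico]
  rw [e1, Real.exp_sum]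
  have hE0 : 0 ≤ ∏ l ∈ Finset.range (JB D), Real.exp (zf D a a2 l t).re :=
    Finset.prod_nonneg fun l _ => (Real.exp_pos _).le
  constructor
  · refine le_trans ?_ (Finset.prod_le_prod (fun l _ => mul_nonneg (by linarith [hx1 l]) (Real.exp_pos _).le)
      fun l hl => (key l hl).1)
    rw [Finset.prod_mul_distrib]
    refine mul_le_mul_of_nonneg_right ?_ hE0
    have := prod_one_sub x hx0 hx1 (JB D)
    linarith
  · refine le_trans (Finset.prod_le_prod (fun l _ => norm_nonneg _) fun l hl => (key l hl).2) ?_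
    rw [Finset.prod_mul_distrib]
    refine mul_le_mul_of_nonneg_right ?_ hE0
    have h1 := prod_one_add x hx0 (JB D)
    have h2 : Real.exp (∑ l ∈ Finset.range (JB D), x l) ≤ Real.exp (1 / 3) := Real.exp_le_exp.2 hsum
    have h3 : Real.exp (1 / 3) ≤ 2 := by
      have h4 : Real.exp (1 / 3) ^ 3 ≤ 2 ^ 3 := by
        rw [← Real.exp_nat_mul]
        norm_num
        linarith [Real.exp_one_lt_d9]
      exact le_of_pow_le_pow_left₀ (by norm_num) (by norm_num) h4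
    linarith

/-- the sum of the blocks is the logarithm of the Euler product -/
theorem sum_re {n : ℕ} (k α : Fin n → ℝ) {A : ℝ} (hk : ∑ j, |k j| ≤ A) {D : ℝ} (hD : 1 ≤ D) (t : ℝ) :
    |∑ j, k j * EP ⌊Real.exp D⌋₊ (t + α j) -
      ∑ l ∈ Finset.range (JB D), (zf D (ap k α) (ap k fun j => 2 * α j) l t).re| ≤ A * (2 * S3) := by
  have h1 := EP_PA k α hk ⌊Real.exp D⌋₊ t
  rw [← sum_zj D _ _ hD t, Complex.re_sum] at h1
  exact h1

end Run7.h311.CM
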