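import Pool.Agent.Run7.h311.CM.ZerM

set_option autoImplicit false

/-!
# The critical line: shifted moments of all real orders off a universal small set
-/

open Filter Topology MeasureTheory Complex
open Pool.Agent.Q97.UM

namespace Run7.h311.CM

open Pool.Agent.Q14.UM (KB' dp_qb sum_zj KB_le KB_one qb_len cv_len exp_neg_le exp_neg_mul_nat geo_le)
open Pool.Agent.Q98.UM (EP_PA S3 S3_nonneg norm_ap_le cv_supp supp_zero shift_bd ae_zt)

/-- the regular points of the critical line at which zeta has the size of the Euler product -/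
def GGL (δ κ A W T : ℝ) : Set ℝ := {t : ℝ | zt t ≠ 0 ∧ |Real.log ‖zt t‖ - EP ⌊T ^ δ⌋₊ t| ≤ W ∧
  Reg (δ * Real.log T) κ A t}

lemma zt_meas : Measurable zt := Pool.Agent.Q149.UM.zt_cont.measurable

lemma zf_cont (D : ℝ) (a a2 : ℕ → ℂ) (l : ℕ) : Continuous (zf D a a2 l) := by
  have := (Pool.Agent.Q84.UM.t_DPM.2.2 (KB' D l) (qb D a a2 l) 0).2
  exact this

lemma Reg_meas (D κ A : ℝ) : MeasurableSet {t : ℝ | Reg D κ A t} := by
  have e : {t : ℝ | Reg D κ A t} = ⋂ l ∈ Finset.range (JB D), {t : ℝ | ‖zf D u1 u1 l t‖ ≤ R9 κ l / (10 * A)} := by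
    ext t
    simp only [Set.mem_iInter, Set.mem_ofPred_eq, Finset.mem_range]
    rfl
  rw [e]
  refine Finset.measurableSet_biInter _ fun l _ => ?_
  exact measurableSet_le (zf_cont D u1 u1 l).norm.measurable measurable_const

lemma GGL_meas (δ κ A W T : ℝ) : MeasurableSet (GGL δ κ A W T) := by
  have h1 : MeasurableSet {t : ℝ | zt t ≠ 0} := (zt_meas (measurableSet_singleton 0)).compl
  have h2 : MeasurableSet {t : ℝ | |Real.log ‖zt t‖ - EP ⌊T ^ δ⌋₊ t| ≤ W} := by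
    refine measurableSet_le ?_ measurable_const
    exact (((Real.measurable_log.comp zt_meas.norm).sub (Pool.Agent.Q247.UM.EP_cont _).measurable)).abs
  exact h1.inter (h2.inter (Reg_meas _ _ _))

/-- the mass outside, with a shift -/
theorem out_lin {C C₁ δ κ A W T : ℝ} (hδ : 0 < δ) (hκ : 4 ≤ κ) (hA : 1 ≤ A) (hW : 0 < W) (hC : 1 ≤ C)
    (hC₁ : 0 ≤ C₁) (hT16 : 16 ≤ T) (hD1 : 1 ≤ δ * Real.log T)
    (hblk : ∀ (κ D : ℝ) (a a2 f : ℕ → ℂ) (M J : ℕ), 1 ≤ κ → 1 ≤ D →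
      (∀ n, ‖a n‖ ≤ 1) → (∀ n, ‖a2 n‖ ≤ 1) → 1 ≤ M → Real.log M ≤ 28 * κ * D → (∀ n, M < n → f n = 0) →
      ∑ l ∈ Finset.range J, 1 / (R9 κ l : ℝ) ^ 2 * N2 (KB' D l * M) (cv (qb D a a2 l) f) ≤ C / κ * N2 M f)
    (hθ : 30 * κ * δ ≤ 1 / 4) {M : ℕ} (hM1 : 1 ≤ M) (hM : (M : ℝ) ≤ T ^ (28 * κ * δ))
    (hTP : ∀ b : ℕ → ℂ,
      IntervalIntegrable (fun t => |Real.log ‖zt t‖ - EP ⌊T ^ δ⌋₊ t| ^ 1 * ‖dp M b t‖ ^ 2) volume (T / 2) (4 * T) ∧
      ∫ t in (T / 2)..(4 * T), |Real.log ‖zt t‖ - EP ⌊T ^ δ⌋₊ t| ^ 1 * ‖dp M b t‖ ^ 2 ≤ C₁ * T * N2 M b)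
    {f : ℕ → ℂ} (hf : ∀ n, M < n → f n = 0) {α : ℝ} (hα : |α| ≤ T / 2) :
    ∫ t in Set.Ioc T (2 * T) ∩ {t : ℝ | t + α ∉ GGL δ κ A W T}, ‖dp M f t‖ ^ 2 ≤
      (C₁ / W + 200 * A ^ 2 * C / κ) * (T * N2 M f) := by
  have hT0 : 0 < T := by linarith
  have hT1 : 1 ≤ T := by linarith
  set D := δ * Real.log T with hD
  have hD0 : 0 ≤ D := by linarith
  have hA0 : 0 < A := by linarith
  have hκ0 : 0 < κ := by linarith
  have hn2 := N2_nonneg M f
  have hRp : ∀ l : ℕ, 0 < (R9 κ l : ℝ) := fun l => lt_of_lt_of_le (by positivity) (R9_ge κ l)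
  set a : ℕ → ℂ := ap (fun _ : Fin 1 => (1 : ℝ)) (fun _ => α) with ha
  set a2 : ℕ → ℂ := ap (fun _ : Fin 1 => (1 : ℝ)) (fun _ => 2 * α) with ha2
  have hna : ∀ n, ‖a n‖ ≤ 1 := norm_ap_le _ _ (by simp)
  have hna2 : ∀ n, ‖a2 n‖ ≤ 1 := norm_ap_le _ _ (by simp)
  have hzf : ∀ l t, zf D a a2 l t = zf D u1 u1 l (t + α) := by
    intro l t
    have := zf_ap (fun _ : Fin 1 => (1 : ℝ)) (fun _ => α) hD0 l t
    rw [Fin.sum_univ_one] at this
    rw [ha, ha2, this]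
    simp
  set V : ℝ → ℝ := fun t => |Real.log ‖zt (t + α)‖ - EP ⌊T ^ δ⌋₊ (t + α)| with hV
  obtain ⟨v1, v2⟩ := shift_bd Pool.Agent.Q84.UM.t_DPM hT0.le hTP (f := f) hα
  have hKM : ∀ l, ((KB' D l * M : ℕ) : ℝ) ≤ T ^ (1 / 4 : ℝ) := by
    intro l
    have h1 : (KB' D l : ℝ) ≤ T ^ (2 * δ) := by
      refine (KB_le D l).trans ?_
      rw [Real.rpow_def_of_pos hT0]
      refine Real.exp_le_exp.2 ?_
      have : Real.exp (-(l : ℝ)) ≤ 1 := Real.exp_le_one_iff.2 (by simp)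
      have h2 : 2 * D * Real.exp (-(l : ℝ)) ≤ 2 * D * 1 := mul_le_mul_of_nonneg_left this (by linarith)
      rw [hD] at h2 ⊢
      linarith
    push_cast
    calc (KB' D l : ℝ) * M ≤ T ^ (2 * δ) * T ^ (28 * κ * δ) :=
          mul_le_mul h1 hM (Nat.cast_nonneg _) (by positivity)
      _ = T ^ (2 * δ + 28 * κ * δ) := by rw [← Real.rpow_add hT0]
      _ ≤ T ^ (1 / 4 : ℝ) := Real.rpow_le_rpow_of_exponent_le hT1 (by nlinarith)
  have hq : ∀ l t, ‖zf D u1 u1 l (t + α)‖ ^ 2 * ‖dp M f t‖ ^ 2 =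
      ‖dp (KB' D l * M) (cv (qb D a a2 l) f) t‖ ^ 2 := by
    intro l t
    rw [← Pool.Agent.Q84.UM.t_DPM.1 (KB' D l) M (qb D a a2 l) f t (qb_len D a a2 l hD0) hf, norm_mul, mul_pow,
      ← hzf l t]
    rfl
  set g : ℝ → ℝ := fun t => 1 / W * (V t * ‖dp M f t‖ ^ 2) +
      ∑ l ∈ Finset.range (JB D), 100 * A ^ 2 * (1 / (R9 κ l : ℝ) ^ 2) *
        ‖dp (KB' D l * M) (cv (qb D a a2 l) f) t‖ ^ 2 with hg
  have hg0 : ∀ t, 0 ≤ g t := by
    intro t
    have : 0 ≤ V t := abs_nonneg _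
    simp only [hg]
    positivity
  have hcs : Continuous fun t => ∑ l ∈ Finset.range (JB D), 100 * A ^ 2 * (1 / (R9 κ l : ℝ) ^ 2) *
        ‖dp (KB' D l * M) (cv (qb D a a2 l) f) t‖ ^ 2 :=
    continuous_finsetSum _ fun l _ => continuous_const.mul
      ((Pool.Agent.Q84.UM.t_DPM.2.2 _ _ 0).2.norm.pow 2)
  have hgi : IntervalIntegrable g volume T (2 * T) :=
    (v1.const_mul _).add (hcs.intervalIntegrable _ _)
  have hle : T ≤ 2 * T := by linarith
  have hgI : IntegrableOn g (Set.Ioc T (2 * T)) :=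
    (intervalIntegrable_iff_integrableOn_Ioc_of_le hle).1 hgi
  set S : Set ℝ := Set.Ioc T (2 * T) ∩ {t : ℝ | t + α ∉ GGL δ κ A W T} with hS
  have hSm : MeasurableSet S := by
    refine measurableSet_Ioc.inter ?_
    exact ((measurable_add_const α) (GGL_meas δ κ A W T)).compl
  have hSsub : S ⊆ Set.Ioc T (2 * T) := Set.inter_subset_left
  have hpt : ∀ᵐ t : ℝ, t ∈ S → ‖dp M f t‖ ^ 2 ≤ g t := by
    refine (ae_zt α).mono fun t ht hts => ?_
    have hts2 : t + α ∉ GGL δ κ A W T := hts.2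
    have hnn : ∀ l ∈ Finset.range (JB D), 0 ≤ 100 * A ^ 2 * (1 / (R9 κ l : ℝ) ^ 2) *
        ‖dp (KB' D l * M) (cv (qb D a a2 l) f) t‖ ^ 2 := fun l _ => by positivity
    by_cases hVW : V t ≤ W
    · have h1 : ¬ Reg D κ A (t + α) := fun h => hts2 ⟨ht, hVW, h⟩
      unfold Reg at h1
      push Not at h1
      obtain ⟨l, hl, hlt⟩ := h1
      have h3 : 1 ≤ 100 * A ^ 2 * (1 / (R9 κ l : ℝ) ^ 2) * ‖zf D u1 u1 l (t + α)‖ ^ 2 := by
        have h4 : (R9 κ l / (10 * A)) ^ 2 ≤ ‖zf D u1 u1 l (t + α)‖ ^ 2 :=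
          pow_le_pow_left₀ (by positivity) hlt.le 2
        have h5 : 100 * A ^ 2 * (1 / (R9 κ l : ℝ) ^ 2) * (R9 κ l / (10 * A)) ^ 2 = 1 := by
          have := (hRp l).ne'
          field_simp
          norm_num
        calc (1 : ℝ) = 100 * A ^ 2 * (1 / (R9 κ l : ℝ) ^ 2) * (R9 κ l / (10 * A)) ^ 2 := h5.symm
          _ ≤ _ := mul_le_mul_of_nonneg_left h4 (by positivity)
      have h6 : ‖dp M f t‖ ^ 2 ≤ 100 * A ^ 2 * (1 / (R9 κ l : ℝ) ^ 2) *
          ‖dp (KB' D l * M) (cv (qb D a a2 l) f) t‖ ^ 2 := by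
        rw [← hq, ← mul_assoc]
        exact le_mul_of_one_le_left (by positivity) h3
      have h7 := Finset.single_le_sum hnn (Finset.mem_range.2 hl)
      have h8 : 0 ≤ 1 / W * (V t * ‖dp M f t‖ ^ 2) := by
        have : 0 ≤ V t := abs_nonneg _
        positivity
      simp only [hg]
      linarith
    · push Not at hVW
      have h1 : ‖dp M f t‖ ^ 2 ≤ 1 / W * (V t * ‖dp M f t‖ ^ 2) := by
        rw [← mul_assoc]
        refine le_mul_of_one_le_left (by positivity) ?_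
        rw [one_div, inv_mul_eq_div, one_le_div hW]
        exact hVW.le
      have h2 := Finset.sum_nonneg hnn
      simp only [hg]
      linarith
  have hFc : Continuous fun t => ‖dp M f t‖ ^ 2 := (Pool.Agent.Q84.UM.t_DPM.2.2 _ _ 0).2.norm.pow 2
  have hFI : IntegrableOn (fun t => ‖dp M f t‖ ^ 2) S :=
    ((hFc.integrableOn_Icc (a := T) (b := 2 * T)).mono_set Set.Ioc_subset_Icc_self).mono_set hSsub
  have hlogM : Real.log M ≤ 28 * κ * D := by
    have hm1 : (1 : ℝ) ≤ (M : ℝ) := by exact_mod_cast hM1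
    have := Real.log_le_log (by linarith) hM
    rw [Real.log_rpow hT0] at this
    rw [hD]
    linarith
  have hbl := hblk κ D a a2 f M (JB D) (by linarith) hD1 hna hna2 hM1 hlogM hf
  calc ∫ t in S, ‖dp M f t‖ ^ 2 ≤ ∫ t in S, g t :=
        setIntegral_mono_ae_restrict hFI (hgI.mono_set hSsub) ((ae_restrict_iff' hSm).2 hpt)
    _ ≤ ∫ t in Set.Ioc T (2 * T), g t :=
        setIntegral_mono_set hgI (Eventually.of_forall hg0) (Eventually.of_forall hSsub)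
    _ = ∫ t in T..(2 * T), g t := by rw [intervalIntegral.integral_of_le hle]
    _ = 1 / W * (∫ t in T..(2 * T), V t * ‖dp M f t‖ ^ 2) +
          ∑ l ∈ Finset.range (JB D), 100 * A ^ 2 * (1 / (R9 κ l : ℝ) ^ 2) *
            ∫ t in T..(2 * T), ‖dp (KB' D l * M) (cv (qb D a a2 l) f) t‖ ^ 2 := by
        have hii : ∀ l ∈ Finset.range (JB D), IntervalIntegrable (fun t : ℝ =>
            100 * A ^ 2 * (1 / (R9 κ l : ℝ) ^ 2) * ‖dp (KB' D l * M) (cv (qb D a a2 l) f) t‖ ^ 2)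
            volume T (2 * T) := fun l _ =>
          (continuous_const.mul ((Pool.Agent.Q84.UM.t_DPM.2.2 _ _ 0).2.norm.pow 2)).intervalIntegrable _ _
        simp only [hg]
        rw [intervalIntegral.integral_add (v1.const_mul _) (hcs.intervalIntegrable _ _),
          intervalIntegral.integral_const_mul, intervalIntegral.integral_finsetSum hii]
        congr 1
        exact Finset.sum_congr rfl fun l _ => by rw [intervalIntegral.integral_const_mul]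
    _ ≤ 1 / W * (C₁ * T * N2 M f) +
          ∑ l ∈ Finset.range (JB D), 200 * A ^ 2 * T *
            (1 / (R9 κ l : ℝ) ^ 2 * N2 (KB' D l * M) (cv (qb D a a2 l) f)) := by
        refine add_le_add (mul_le_mul_of_nonneg_left v2 (by positivity)) ?_
        refine Finset.sum_le_sum fun l _ => ?_
        have := mul_le_mul_of_nonneg_left (Pool.Agent.Q84.UM.t_MVL T hT16 (KB' D l * M) (hKM l)
          (cv (qb D a a2 l) f)).2 (by positivity : 0 ≤ 100 * A ^ 2 * (1 / (R9 κ l : ℝ) ^ 2))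
        refine this.trans (le_of_eq ?_)
        ring
    _ ≤ 1 / W * (C₁ * T * N2 M f) + 200 * A ^ 2 * T * (C / κ * N2 M f) := by
        rw [← Finset.mul_sum]
        have h2 : 0 ≤ 200 * A ^ 2 * T := by positivity
        have := mul_le_mul_of_nonneg_left hbl h2
        linarith
    _ = _ := by ring

end Run7.h311.CM
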