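import Pool.Agent.Run7.h311.CM.Lin

set_option autoImplicit false

/-!
# Shifted moments of all real orders off a universal small set, relative to every Dirichlet polynomial
-/

open Filter Topology MeasureTheory Complex
open Pool.Agent.Q97.UM

namespace Run7.h311.CM

open Pool.Agent.Q14.UM (KB' dp_qb sum_zj KB_le KB_one qb_len cv_len exp_neg_le exp_neg_mul_nat geo_le)
open Pool.Agent.Q98.UM (EP_PA S3 S3_nonneg norm_ap_le cv_supp supp_zero shift_bd ae_zt)

/-- the quadratic form of the exponents -/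
noncomputable def QF' {n : ℕ} (k α : Fin n → ℝ) (T : ℝ) : ℝ :=
  ∑ i, ∑ j, k i * k j * Real.log ‖riemannZeta (1 + 1 / Real.log T + (α i - α j : ℝ) * I)‖

lemma cpow_neg_eq {p : ℕ} (hp : 0 < p) (x : ℝ) : (p : ℂ) ^ (-(x * I)) =
    (Real.cos (x * Real.log p) : ℂ) - Real.sin (x * Real.log p) * I := by
  have hp0 : (p : ℂ) ≠ 0 := by exact_mod_cast hp.ne'
  rw [Complex.cpow_def_of_ne_zero hp0, ← Complex.natCast_log]
  have e : ((Real.log p : ℝ) : ℂ) * -(x * I) = ((-(x * Real.log p) : ℝ) : ℂ) * I := by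
    push_cast
    ring
  rw [e, Complex.exp_mul_I, ← Complex.ofReal_cos, ← Complex.ofReal_sin, Real.cos_neg, Real.sin_neg]
  push_cast
  ring

lemma ap_sq {n : ℕ} (k α : Fin n → ℝ) {p : ℕ} (hp : 0 < p) : ‖ap k α p‖ ^ 2 =
    ∑ i, ∑ j, k i * k j * Real.cos ((α i - α j) * Real.log p) := by
  have h1 : ap k α p = ((∑ j, k j * Real.cos (α j * Real.log p) : ℝ) : ℂ) +
      ((-∑ j, k j * Real.sin (α j * Real.log p) : ℝ) : ℂ) * I := by
    unfold ap
    push_cast
    rw [neg_mul, Finset.sum_mul, ← Finset.sum_neg_distrib, ← Finset.sum_add_distrib]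
    refine Finset.sum_congr rfl fun j _ => ?_
    rw [cpow_neg_eq hp]
    push_cast
    ring
  rw [h1, Complex.sq_norm, Complex.normSq_add_mul_I, neg_sq, sq, sq, Finset.sum_mul_sum, Finset.sum_mul_sum,
    ← Finset.sum_add_distrib]
  refine Finset.sum_congr rfl fun i _ => ?_
  rw [← Finset.sum_add_distrib]
  refine Finset.sum_congr rfl fun j _ => ?_
  rw [sub_mul, Real.cos_sub]
  ring

/-- the exponent of the polynomial -/
theorem form_two {δ : ℝ} (hδ : 0 < δ) (hδ1 : δ ≤ 1) : ∃ C : ℝ, 0 ≤ C ∧ ∀ᶠ T : ℝ in atTop,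
    ∀ (A : ℝ) (n : ℕ) (k α : Fin n → ℝ), ∑ j, |k j| ≤ A →
      |(∑ p ∈ (Finset.Icc 1 ⌊T ^ δ⌋₊).filter Nat.Prime, ‖ap k α p‖ ^ 2 / p) - QF' k α T| ≤ A ^ 2 * C := by
  obtain ⟨C, hC⟩ := Pool.Agent.Q149.UM.t_MZ δ hδ hδ1
  refine ⟨max C 0, le_max_right _ _, ?_⟩
  filter_upwards [hC] with T h A n k α hk
  have e1 : ∑ p ∈ (Finset.Icc 1 ⌊T ^ δ⌋₊).filter Nat.Prime, ‖ap k α p‖ ^ 2 / (p : ℝ) =
      ∑ i, ∑ j, k i * k j * ∑ p ∈ (Finset.Icc 1 ⌊T ^ δ⌋₊).filter Nat.Prime,
        Real.cos ((α i - α j) * Real.log p) / p := by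
    have e2 : ∀ p ∈ (Finset.Icc 1 ⌊T ^ δ⌋₊).filter Nat.Prime, ‖ap k α p‖ ^ 2 / (p : ℝ) =
        ∑ i, ∑ j, k i * k j * (Real.cos ((α i - α j) * Real.log p) / p) := by
      intro p hp
      rw [ap_sq k α (Finset.mem_filter.1 hp).2.pos, Finset.sum_div]
      refine Finset.sum_congr rfl fun i _ => ?_
      rw [Finset.sum_div]
      exact Finset.sum_congr rfl fun j _ => by ring
    rw [Finset.sum_congr rfl e2, Finset.sum_comm]
    refine Finset.sum_congr rfl fun i _ => ?_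
    rw [Finset.sum_comm]
    refine Finset.sum_congr rfl fun j _ => ?_
    rw [Finset.mul_sum]
  rw [e1]
  unfold QF'
  rw [← Finset.sum_sub_distrib]
  refine (Finset.abs_sum_le_sum_abs _ _).trans ?_
  have h2 : ∀ i ∈ (Finset.univ : Finset (Fin n)), |(∑ j, k i * k j *
      ∑ p ∈ (Finset.Icc 1 ⌊T ^ δ⌋₊).filter Nat.Prime, Real.cos ((α i - α j) * Real.log p) / p) -
      ∑ j, k i * k j * Real.log ‖riemannZeta (1 + 1 / Real.log T + (α i - α j : ℝ) * I)‖| ≤
      |k i| * ((∑ j, |k j|) * max C 0) := by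
    intro i _
    rw [← Finset.sum_sub_distrib]
    refine (Finset.abs_sum_le_sum_abs _ _).trans ?_
    rw [Finset.sum_mul, Finset.mul_sum]
    refine Finset.sum_le_sum fun j _ => ?_
    rw [← mul_sub, abs_mul, abs_mul, mul_assoc]
    refine mul_le_mul_of_nonneg_left ?_ (abs_nonneg _)
    exact mul_le_mul_of_nonneg_left ((h (α i - α j)).trans (le_max_left _ _)) (abs_nonneg _)
  refine (Finset.sum_le_sum h2).trans ?_
  rw [← Finset.sum_mul]
  have h3 : 0 ≤ ∑ j, |k j| := Finset.sum_nonneg fun j _ => abs_nonneg _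
  have h4 : 0 ≤ max C 0 := le_max_right _ _
  calc (∑ i, |k i|) * ((∑ j, |k j|) * max C 0) = (∑ j, |k j|) ^ 2 * max C 0 := by ring
    _ ≤ A ^ 2 * max C 0 := mul_le_mul_of_nonneg_right (pow_le_pow_left₀ h3 hk 2) h4

/-- coefficients of the comparison polynomial -/
noncomputable def ec (δ κ T : ℝ) {n : ℕ} (k α : Fin n → ℝ) : ℕ → ℂ :=
  ebk (δ * Real.log T) κ (ap k α) (ap k fun j => 2 * α j) 0 (JB (δ * Real.log T))

/-- the set where all the shifted values are regular -/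
def SG (δ κ A W T : ℝ) {n : ℕ} (α : Fin n → ℝ) : Set ℝ :=
  Set.Ioc T (2 * T) ∩ {t : ℝ | ∀ j, t + α j ∈ GGL δ κ A W T}

lemma SG_meas (δ κ A W T : ℝ) {n : ℕ} (α : Fin n → ℝ) : MeasurableSet (SG δ κ A W T α) := by
  refine measurableSet_Ioc.inter ?_
  have e : {t : ℝ | ∀ j, t + α j ∈ GGL δ κ A W T} = ⋂ j, (fun t => t + α j) ⁻¹' GGL δ κ A W T := by
    ext t
    simp
  rw [e]
  exact MeasurableSet.iInter fun j => (measurable_add_const (α j)) (GGL_meas δ κ A W T)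

/-- the data of the theorem for the line -/
structure LD' (A ε δ κ W c C T : ℝ) : Prop where
  neg : ∀ α : ℝ, |α| ≤ T / 2 → ∀ N : ℕ, (N : ℝ) ≤ T ^ δ → ∀ b : ℕ → ℂ, (∀ n, b n ≠ 0 → 1 ≤ n ∧ n ≤ N) →
    ∫ t in Set.Ioc T (2 * T) ∩ {t : ℝ | t + α ∉ GGL δ κ A W T}, ‖dp N b t‖ ^ 2 ≤ ε * (T * N2 N b)
  supp : ∀ (n : ℕ) (k α : Fin n → ℝ), ∀ m, ec δ κ T k α m ≠ 0 → 1 ≤ m ∧ m ≤ M9 (δ * Real.log T) κ
  ord : ∀ (n : ℕ) (k α : Fin n → ℝ), ∑ j, |k j| ≤ A →
    c * Real.exp (QF' k α T) ≤ N2 (M9 (δ * Real.log T) κ) (ec δ κ T k α) ∧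
      N2 (M9 (δ * Real.log T) κ) (ec δ κ T k α) ≤ C * Real.exp (QF' k α T)
  mom : ∀ (n : ℕ) (k α : Fin n → ℝ), (n : ℝ) ≤ A → ∑ j, |k j| ≤ A → (∀ j, |α j| ≤ T / 2) →
    ∀ N : ℕ, (N : ℝ) ≤ T ^ δ → ∀ b : ℕ → ℂ, (∀ n, b n ≠ 0 → 1 ≤ n ∧ n ≤ N) →
    c * (T * N2 (M9 (δ * Real.log T) κ * N) (cv (ec δ κ T k α) b)) ≤
      ∫ t in SG δ κ A W T α, (∏ j, ‖zt (t + α j)‖ ^ (2 * k j)) * ‖dp N b t‖ ^ 2 ∧
    ∫ t in SG δ κ A W T α, (∏ j, ‖zt (t + α j)‖ ^ (2 * k j)) * ‖dp N b t‖ ^ 2 ≤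
      C * (T * N2 (M9 (δ * Real.log T) κ * N) (cv (ec δ κ T k α) b))

theorem lin_main (A ε : ℝ) (hA : 1 ≤ A) (hε : 0 < ε) (hε1 : ε ≤ 1 / (4 * A)) : ∃ δ κ W c C : ℝ, 0 < δ ∧
    4 ≤ κ ∧ 28 * κ * δ ≤ 1 / 8 ∧ 0 < W ∧ 0 < c ∧ 0 < C ∧ ∀ᶠ T : ℝ in atTop, LD' A ε δ κ W c C T := by
  obtain ⟨θ₃, δ₀, hθ₃, hδ₀, hTP⟩ := b_THP 1
  obtain ⟨C₀, hC₀, hblk⟩ := blk_sum
  obtain ⟨κ₀, hκ₀, c₂, C₂, hc₂, hC₂, hEN⟩ := b_EN2 A hA
  obtain ⟨κ, hκ4, hκκ, hκε⟩ : ∃ κ : ℝ, 4 ≤ κ ∧ κ₀ ≤ κ ∧ 200 * A ^ 2 * C₀ / κ ≤ ε / 2 := by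
    refine ⟨max κ₀ (400 * A ^ 2 * C₀ / ε), hκ₀.trans (le_max_left _ _), le_max_left _ _, ?_⟩
    have h1 : 0 < max κ₀ (400 * A ^ 2 * C₀ / ε) := lt_of_lt_of_le (by linarith) (le_max_left _ _)
    rw [div_le_iff₀ h1]
    have h2 := le_max_right κ₀ (400 * A ^ 2 * C₀ / ε)
    have h3 : ε / 2 * (400 * A ^ 2 * C₀ / ε) = 200 * A ^ 2 * C₀ := by
      field_simp
      norm_num
    rw [← h3]
    exact mul_le_mul_of_nonneg_left h2 (by positivity)
  have hκ0 : 0 < κ := by linarith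
  obtain ⟨θ, hθ0, hθ40, hθa⟩ : ∃ θ : ℝ, 0 < θ ∧ θ ≤ 1 / 8 ∧ θ ≤ θ₃ :=
    ⟨min (1 / 8) θ₃, by positivity, min_le_left _ _, min_le_right _ _⟩
  obtain ⟨δ, hδ, hδ1, hδ2⟩ : ∃ δ : ℝ, 0 < δ ∧ 30 * κ * δ ≤ θ ∧ δ ≤ δ₀ := by
    refine ⟨min (θ / (30 * κ)) δ₀, by positivity, ?_, min_le_right _ _⟩
    calc 30 * κ * min (θ / (30 * κ)) δ₀ ≤ 30 * κ * (θ / (30 * κ)) :=
          mul_le_mul_of_nonneg_left (min_le_left _ _) (by positivity)
      _ = θ := by field_simp
  have hδ1' : δ ≤ 1 := by nlinarith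
  obtain ⟨C₁, hC₁, hTP⟩ := hTP δ hδ hδ2
  obtain ⟨C₃, hC₃, hPR⟩ := form_two hδ hδ1'
  obtain ⟨W, hW, hWε⟩ : ∃ W : ℝ, 0 < W ∧ C₁ / W ≤ ε / 2 := by
    refine ⟨2 * C₁ / ε + 1, by positivity, ?_⟩
    rw [div_le_iff₀ (by positivity)]
    have : ε / 2 * (2 * C₁ / ε + 1) = C₁ + ε / 2 := by field_simp
    linarith
  have hS3 := S3_nonneg
  set K : ℝ := 2 * A * W + 4 * A * S3 with hK
  have hK0 : 0 ≤ K := by positivity
  refine ⟨δ, κ, W, min (c₂ * Real.exp (-(A ^ 2 * C₃))) (Real.exp (-K) / 16),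
    max (C₂ * Real.exp (A ^ 2 * C₃)) (8 * Real.exp K) + 1, hδ, hκ4, by nlinarith, hW, by positivity,
    by positivity, ?_⟩
  filter_upwards [hTP, hPR, eventually_ge_atTop 16,
    (Real.tendsto_log_atTop.eventually_ge_atTop (1 / δ))] with T hTP hPR hT16 hLδ
  have hT0 : 0 < T := by linarith
  have hT1 : 1 ≤ T := by linarith
  have hD1 : 1 ≤ δ * Real.log T := by
    rw [div_le_iff₀ hδ] at hLδ
    linarith
  set D := δ * Real.log T with hD
  have hTδ : T ^ δ = Real.exp D := by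
    rw [Real.rpow_def_of_pos hT0, hD, mul_comm]
  have hmono : ∀ {x y : ℝ}, x ≤ y → T ^ x ≤ T ^ y := fun h => Real.rpow_le_rpow_of_exponent_le hT1 h
  have hneg : ∀ α : ℝ, |α| ≤ T / 2 → ∀ (M : ℕ) (f : ℕ → ℂ), (M : ℝ) ≤ T ^ (28 * κ * δ) →
      (∀ n, M < n → f n = 0) →
      ∫ t in Set.Ioc T (2 * T) ∩ {t : ℝ | t + α ∉ GGL δ κ A W T}, ‖dp M f t‖ ^ 2 ≤ ε * (T * N2 M f) := by
    intro α hα M f hM hf
    rcases Nat.eq_zero_or_pos M with h0 | hM1
    · subst h0
      have e1 : N2 0 f = 0 := by unfold N2; simp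
      have e2 : ∀ t, dp 0 f t = 0 := fun t => by unfold dp; simp
      simp [e1, e2]
    refine (out_lin (M := M) hδ hκ4 hA hW hC₀ hC₁ hT16 hD1 hblk (by linarith) hM1 hM
      (fun b => hTP M (hM.trans (hmono (by nlinarith))) b) hf hα).trans ?_
    exact mul_le_mul_of_nonneg_right (by linarith) (mul_nonneg hT0.le (N2_nonneg _ _))
  have h28 : T ^ δ ≤ T ^ (28 * κ * δ) := hmono (by nlinarith)
  have hcof : ∀ (n : ℕ) (k α : Fin n → ℝ), (∀ m, ec δ κ T k α m ≠ 0 → 1 ≤ m ∧ m ≤ M9 D κ) ∧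
      ∀ t, dp (M9 D κ) (ec δ κ T k α) t = Ef D κ (ap k α) (ap k fun j => 2 * α j) 0 t := by
    intro n k α
    have h := b_COF κ D (by linarith) hD1 (ap k α) (ap k fun j => 2 * α j) u1 u1 0 0
    rw [Nat.sub_zero] at h
    exact ⟨h.1, h.2.1⟩
  refine ⟨fun α hα N hN b hb => hneg α hα N b (hN.trans h28) (supp_zero hb), fun n k α => (hcof n k α).1, ?_, ?_⟩
  · intro n k α hk
    have h1 := hEN κ D (ap k α) (ap k fun j => 2 * α j) hκκ hD1 (norm_ap_le k α hk) (norm_ap_le k _ hk)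
    rw [← hTδ] at h1
    have h2 := abs_le.1 (hPR A n k α hk)
    constructor
    · refine le_trans ?_ h1.1
      calc min (c₂ * Real.exp (-(A ^ 2 * C₃))) (Real.exp (-K) / 16) * Real.exp (QF' k α T)
          ≤ c₂ * Real.exp (-(A ^ 2 * C₃)) * Real.exp (QF' k α T) :=
            mul_le_mul_of_nonneg_right (min_le_left _ _) (by positivity)
        _ = c₂ * Real.exp (QF' k α T - A ^ 2 * C₃) := by
            rw [mul_assoc, ← Real.exp_add]
            congr 2
            ring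
        _ ≤ _ := mul_le_mul_of_nonneg_left (Real.exp_le_exp.mpr (by linarith [h2.1])) hc₂.le
    · refine h1.2.trans ?_
      calc C₂ * Real.exp (∑ p ∈ (Finset.Icc 1 ⌊T ^ δ⌋₊).filter Nat.Prime, ‖ap k α p‖ ^ 2 / p)
          ≤ C₂ * Real.exp (QF' k α T + A ^ 2 * C₃) :=
            mul_le_mul_of_nonneg_left (Real.exp_le_exp.mpr (by linarith [h2.2])) hC₂
        _ = C₂ * Real.exp (A ^ 2 * C₃) * Real.exp (QF' k α T) := by
            rw [Real.exp_add]
            ring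
        _ ≤ (max (C₂ * Real.exp (A ^ 2 * C₃)) (8 * Real.exp K) + 1) * Real.exp (QF' k α T) := by
            refine mul_le_mul_of_nonneg_right ?_ (Real.exp_pos _).le
            linarith [le_max_left (C₂ * Real.exp (A ^ 2 * C₃)) (8 * Real.exp K)]
  · intro n k α hn hk hα N hN b hb
    obtain ⟨hes, hed⟩ := hcof n k α
    set e : ℕ → ℂ := ec δ κ T k α with he
    set M := M9 D κ with hM
    have hML : (M : ℝ) ≤ T ^ (26 * κ * δ) := M9_le hT0 hκ0.le hδ.le
    have hMN : ((M * N : ℕ) : ℝ) ≤ T ^ (28 * κ * δ) := by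
      push_cast
      calc (M : ℝ) * N ≤ T ^ (26 * κ * δ) * T ^ δ := mul_le_mul hML hN (Nat.cast_nonneg _) (by positivity)
        _ = T ^ (26 * κ * δ + δ) := by rw [← Real.rpow_add hT0]
        _ ≤ _ := hmono (by nlinarith)
    set f : ℕ → ℂ := cv e b with hf
    have hfs : ∀ m, f m ≠ 0 → 1 ≤ m ∧ m ≤ M * N := cv_supp hes hb
    have hFeq : ∀ t, ‖dp M e t‖ ^ 2 * ‖dp N b t‖ ^ 2 = ‖dp (M * N) f t‖ ^ 2 := fun t => by
      rw [← Pool.Agent.Q84.UM.t_DPM.1 M N e b t (supp_zero hes) (supp_zero hb), norm_mul, mul_pow]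
    have hle : T ≤ 2 * T := by linarith
    obtain ⟨m1, m2⟩ := Pool.Agent.Q84.UM.t_MVL T hT16 (M * N) (hMN.trans (hmono (by nlinarith))) f
    rw [intervalIntegral.integral_of_le hle] at m1 m2
    have hFc : Continuous fun t => ‖dp (M * N) f t‖ ^ 2 := (Pool.Agent.Q84.UM.t_DPM.2.2 _ _ 0).2.norm.pow 2
    have hFI : IntegrableOn (fun t => ‖dp (M * N) f t‖ ^ 2) (Set.Ioc T (2 * T)) :=
      (hFc.integrableOn_Icc (a := T) (b := 2 * T)).mono_set Set.Ioc_subset_Icc_self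
    set S := SG δ κ A W T α with hS
    have hSm : MeasurableSet S := SG_meas δ κ A W T α
    have hSsub : S ⊆ Set.Ioc T (2 * T) := Set.inter_subset_left
    have hn2 := N2_nonneg (M * N) f
    -- most of the mass
    have hmass : 1 / 4 * (T * N2 (M * N) f) ≤ ∫ t in S, ‖dp (M * N) f t‖ ^ 2 := by
      have h1 : ∫ t in Set.Ioc T (2 * T), ‖dp (M * N) f t‖ ^ 2 ≤ (∫ t in S, ‖dp (M * N) f t‖ ^ 2) +
          ∑ j, ∫ t in Set.Ioc T (2 * T) ∩ {t : ℝ | t + α j ∉ GGL δ κ A W T}, ‖dp (M * N) f t‖ ^ 2 := by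
        set U : Fin n → Set ℝ := fun j => Set.Ioc T (2 * T) ∩ {t : ℝ | t + α j ∉ GGL δ κ A W T} with hU
        have hUm : ∀ j, MeasurableSet (U j) := fun j =>
          measurableSet_Ioc.inter ((measurable_add_const (α j)) (GGL_meas δ κ A W T)).compl
        have hcov : ∀ t ∈ Set.Ioc T (2 * T), ‖dp (M * N) f t‖ ^ 2 ≤
            S.indicator (fun t => ‖dp (M * N) f t‖ ^ 2) t +
              ∑ j, (U j).indicator (fun t => ‖dp (M * N) f t‖ ^ 2) t := by
          intro t ht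
          have hnn : ∀ j ∈ (Finset.univ : Finset (Fin n)),
              0 ≤ (U j).indicator (fun t => ‖dp (M * N) f t‖ ^ 2) t := fun j _ =>
            Set.indicator_nonneg (fun t _ => by positivity) t
          by_cases h : ∀ j, t + α j ∈ GGL δ κ A W T
          · have : t ∈ S := ⟨ht, h⟩
            rw [Set.indicator_of_mem this]
            have := Finset.sum_nonneg hnn
            linarith
          · push Not at h
            obtain ⟨j, hj⟩ := h
            have hj2 : t ∈ U j := ⟨ht, hj⟩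
            have h2 := Finset.single_le_sum hnn (Finset.mem_univ j)
            rw [Set.indicator_of_mem hj2] at h2
            have h3 : 0 ≤ S.indicator (fun t => ‖dp (M * N) f t‖ ^ 2) t :=
              Set.indicator_nonneg (fun t _ => by positivity) t
            linarith
        have i1 : IntegrableOn (S.indicator (fun t => ‖dp (M * N) f t‖ ^ 2)) (Set.Ioc T (2 * T)) :=
          Integrable.indicator hFI hSm
        have i2 : ∀ j, IntegrableOn ((U j).indicator (fun t => ‖dp (M * N) f t‖ ^ 2)) (Set.Ioc T (2 * T)) :=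
          fun j => Integrable.indicator hFI (hUm j)
        have i3 : IntegrableOn (fun t => ∑ j, (U j).indicator (fun t => ‖dp (M * N) f t‖ ^ 2) t)
            (Set.Ioc T (2 * T)) := integrable_finsetSum _ fun j _ => i2 j
        calc ∫ t in Set.Ioc T (2 * T), ‖dp (M * N) f t‖ ^ 2
            ≤ ∫ t in Set.Ioc T (2 * T), (S.indicator (fun t => ‖dp (M * N) f t‖ ^ 2) t +
              ∑ j, (U j).indicator (fun t => ‖dp (M * N) f t‖ ^ 2) t) :=
              setIntegral_mono_on hFI (i1.add i3) measurableSet_Ioc hcov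
          _ = (∫ t in Set.Ioc T (2 * T), S.indicator (fun t => ‖dp (M * N) f t‖ ^ 2) t) +
              ∑ j, ∫ t in Set.Ioc T (2 * T), (U j).indicator (fun t => ‖dp (M * N) f t‖ ^ 2) t := by
              rw [integral_add i1 i3, integral_finsetSum _ fun j _ => i2 j]
          _ = _ := by
              rw [setIntegral_indicator hSm, Set.inter_eq_self_of_subset_right hSsub]
              congr 1
              refine Finset.sum_congr rfl fun j _ => ?_
              rw [setIntegral_indicator (hUm j), Set.inter_eq_self_of_subset_right Set.inter_subset_left]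
      have h2 : ∑ j, ∫ t in Set.Ioc T (2 * T) ∩ {t : ℝ | t + α j ∉ GGL δ κ A W T}, ‖dp (M * N) f t‖ ^ 2 ≤
          1 / 4 * (T * N2 (M * N) f) := by
        calc ∑ j, ∫ t in Set.Ioc T (2 * T) ∩ {t : ℝ | t + α j ∉ GGL δ κ A W T}, ‖dp (M * N) f t‖ ^ 2
            ≤ ∑ _j : Fin n, ε * (T * N2 (M * N) f) :=
              Finset.sum_le_sum fun j _ => hneg (α j) (hα j) (M * N) f hMN (supp_zero hfs)
          _ = (n * ε) * (T * N2 (M * N) f) := by
              rw [Finset.sum_const, Finset.card_univ, Fintype.card_fin, nsmul_eq_mul]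
              ring
          _ ≤ 1 / 4 * (T * N2 (M * N) f) := by
              refine mul_le_mul_of_nonneg_right ?_ (mul_nonneg hT0.le hn2)
              have hA0 : 0 < A := by linarith
              calc (n : ℝ) * ε ≤ A * (1 / (4 * A)) := mul_le_mul hn hε1 hε.le hA0.le
                _ = 1 / 4 := by field_simp
      linarith
    -- the pointwise comparison
    have hpt : ∀ t ∈ S, Real.exp (-K) / 4 * ‖dp M e t‖ ^ 2 ≤ ∏ j, ‖zt (t + α j)‖ ^ (2 * k j) ∧
        ∏ j, ‖zt (t + α j)‖ ^ (2 * k j) ≤ 4 * Real.exp K * ‖dp M e t‖ ^ 2 := by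
      intro t ht
      have ht2 : ∀ j, t + α j ∈ GGL δ κ A W T := ht.2
      obtain ⟨g1, g2⟩ := reg_two hA hk hκ4 hD1 (fun j => (ht2 j).2.2)
      rw [← hTδ] at g1 g2
      rw [hed]
      set E := ‖Ef D κ (ap k α) (ap k fun j => 2 * α j) 0 t‖ with hE
      set x := ∑ j, k j * EP ⌊T ^ δ⌋₊ (t + α j) with hx
      have hE2a : 1 / 4 * Real.exp (2 * x - 4 * A * S3) ≤ E ^ 2 := by
        have := pow_le_pow_left₀ (by positivity) g1 2
        rw [mul_pow, ← Real.exp_nat_mul] at this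
        refine le_trans (le_of_eq ?_) this
        norm_num
        ring_nf
      have hE2b : E ^ 2 ≤ 4 * Real.exp (2 * x + 4 * A * S3) := by
        have := pow_le_pow_left₀ (norm_nonneg _) g2 2
        rw [mul_pow, ← Real.exp_nat_mul] at this
        refine le_trans this (le_of_eq ?_)
        norm_num
        ring_nf
      have hprod : ∏ j, ‖zt (t + α j)‖ ^ (2 * k j) =
          Real.exp (∑ j, Real.log ‖zt (t + α j)‖ * (2 * k j)) := by
        rw [Real.exp_sum]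
        exact Finset.prod_congr rfl fun j _ => Real.rpow_def_of_pos (norm_pos_iff.mpr (ht2 j).1) _
      have hv : |(∑ j, Real.log ‖zt (t + α j)‖ * (2 * k j)) - 2 * x| ≤ 2 * A * W := by
        rw [hx, Finset.mul_sum, ← Finset.sum_sub_distrib]
        refine (Finset.abs_sum_le_sum_abs _ _).trans ?_
        calc ∑ j, |Real.log ‖zt (t + α j)‖ * (2 * k j) - 2 * (k j * EP ⌊T ^ δ⌋₊ (t + α j))|
            ≤ ∑ j, 2 * |k j| * W := by
              refine Finset.sum_le_sum fun j _ => ?_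
              have e1 : Real.log ‖zt (t + α j)‖ * (2 * k j) - 2 * (k j * EP ⌊T ^ δ⌋₊ (t + α j)) =
                  2 * k j * (Real.log ‖zt (t + α j)‖ - EP ⌊T ^ δ⌋₊ (t + α j)) := by ring
              rw [e1, abs_mul, abs_mul, abs_two]
              exact mul_le_mul_of_nonneg_left (ht2 j).2.1 (by positivity)
          _ = 2 * (∑ j, |k j|) * W := by rw [← Finset.sum_mul, ← Finset.mul_sum]
          _ ≤ 2 * A * W := by gcongr
      have hv3 := abs_le.1 hv
      rw [hprod]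
      constructor
      · calc Real.exp (-K) / 4 * E ^ 2 ≤ Real.exp (-K) / 4 * (4 * Real.exp (2 * x + 4 * A * S3)) := by gcongr
          _ = Real.exp (2 * x - 2 * A * W) := by
              rw [hK]
              have : Real.exp (2 * x - 2 * A * W) = Real.exp (-(2 * A * W + 4 * A * S3)) *
                  Real.exp (2 * x + 4 * A * S3) := by
                rw [← Real.exp_add]
                congr 1
                ring
              rw [this]
              ring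
          _ ≤ _ := Real.exp_le_exp.2 (by linarith [hv3.1])
      · calc Real.exp (∑ j, Real.log ‖zt (t + α j)‖ * (2 * k j)) ≤ Real.exp (2 * x + 2 * A * W) :=
              Real.exp_le_exp.2 (by linarith [hv3.2])
          _ = 4 * Real.exp K * (1 / 4 * Real.exp (2 * x - 4 * A * S3)) := by
              rw [hK]
              have : Real.exp (2 * x + 2 * A * W) = Real.exp (2 * A * W + 4 * A * S3) *
                  Real.exp (2 * x - 4 * A * S3) := by
                rw [← Real.exp_add]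
                congr 1
                ring
              rw [this]
              ring
          _ ≤ _ := by gcongr
    have hGc : Measurable fun t => (∏ j, ‖zt (t + α j)‖ ^ (2 * k j)) * ‖dp N b t‖ ^ 2 := by
      refine Measurable.mul ?_ ?_
      · refine Finset.measurable_fun_prod _ fun j _ => ?_
        exact ((zt_meas.comp (measurable_add_const (α j))).norm).pow_const _
      · exact ((Pool.Agent.Q84.UM.t_DPM.2.2 N b 0).2.norm.pow 2).measurable
    have hptB : ∀ t ∈ S, Real.exp (-K) / 4 * ‖dp (M * N) f t‖ ^ 2 ≤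
        (∏ j, ‖zt (t + α j)‖ ^ (2 * k j)) * ‖dp N b t‖ ^ 2 ∧
        (∏ j, ‖zt (t + α j)‖ ^ (2 * k j)) * ‖dp N b t‖ ^ 2 ≤ 4 * Real.exp K * ‖dp (M * N) f t‖ ^ 2 := by
      intro t ht
      obtain ⟨q1, q2⟩ := hpt t ht
      rw [← hFeq, ← mul_assoc, ← mul_assoc]
      exact ⟨mul_le_mul_of_nonneg_right q1 (by positivity), mul_le_mul_of_nonneg_right q2 (by positivity)⟩
    have hFS : IntegrableOn (fun t => ‖dp (M * N) f t‖ ^ 2) S := hFI.mono_set hSsub
    have hGI : IntegrableOn (fun t => (∏ j, ‖zt (t + α j)‖ ^ (2 * k j)) * ‖dp N b t‖ ^ 2) S := by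
      refine Integrable.mono' (hFS.const_mul (4 * Real.exp K)) hGc.aestronglyMeasurable ?_
      refine (ae_restrict_iff' hSm).2 (Eventually.of_forall fun t ht => ?_)
      rw [Real.norm_of_nonneg (by positivity)]
      exact (hptB t ht).2
    constructor
    · calc min (c₂ * Real.exp (-(A ^ 2 * C₃))) (Real.exp (-K) / 16) * (T * N2 (M * N) f)
          ≤ Real.exp (-K) / 16 * (T * N2 (M * N) f) :=
            mul_le_mul_of_nonneg_right (min_le_right _ _) (mul_nonneg hT0.le hn2)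
        _ = Real.exp (-K) / 4 * (1 / 4 * (T * N2 (M * N) f)) := by ring
        _ ≤ Real.exp (-K) / 4 * ∫ t in S, ‖dp (M * N) f t‖ ^ 2 :=
            mul_le_mul_of_nonneg_left hmass (by positivity)
        _ = ∫ t in S, Real.exp (-K) / 4 * ‖dp (M * N) f t‖ ^ 2 := by rw [integral_const_mul]
        _ ≤ _ := setIntegral_mono_on (hFS.const_mul _) hGI hSm fun t ht => (hptB t ht).1
    · calc ∫ t in S, (∏ j, ‖zt (t + α j)‖ ^ (2 * k j)) * ‖dp N b t‖ ^ 2
          ≤ ∫ t in S, 4 * Real.exp K * ‖dp (M * N) f t‖ ^ 2 :=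
            setIntegral_mono_on hGI (hFS.const_mul _) hSm fun t ht => (hptB t ht).2
        _ = 4 * Real.exp K * ∫ t in S, ‖dp (M * N) f t‖ ^ 2 := by rw [integral_const_mul]
        _ ≤ 4 * Real.exp K * (2 * T * N2 (M * N) f) := by
            refine mul_le_mul_of_nonneg_left ?_ (by positivity)
            exact (setIntegral_mono_set hFI (Eventually.of_forall fun t => by
              simp only [Pi.zero_apply]; positivity) (Eventually.of_forall hSsub)).trans m2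
        _ = 8 * Real.exp K * (T * N2 (M * N) f) := by ring
        _ ≤ _ := by
            have h7 := le_max_right (C₂ * Real.exp (A ^ 2 * C₃)) (8 * Real.exp K)
            exact mul_le_mul_of_nonneg_right (h7.trans (by linarith)) (mul_nonneg hT0.le hn2)

end Run7.h311.CM
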