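import Pool.Agent.Run7.h311.CM.Blk

set_option autoImplicit false

/-!
# The regular isolated zeros: size of the derivative and moments of all real orders
-/

open Filter Topology MeasureTheory Complex
open Pool.Agent.Q97.UM

namespace Run7.h311.CM

open Pool.Agent.Q14.UM (KB' dp_qb sum_zj KB_le KB_one qb_len cv_len exp_neg_le exp_neg_mul_nat geo_le)
open Pool.Agent.Q98.UM (EP_PA S3 S3_nonneg norm_ap_le samp_upper mem_ZI cv_supp supp_zero deriv_ne)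

/-- the constant sequence -/
def u1 : ℕ → ℂ := fun _ => 1

lemma zf_ap {n : ℕ} (k α : Fin n → ℝ) {D : ℝ} (hD : 0 ≤ D) (l : ℕ) (t : ℝ) :
    zf D (ap k α) (ap k fun j => 2 * α j) l t = ∑ j, (k j : ℂ) * zf D u1 u1 l (t + α j) := by
  simp only [zf_eq]
  rw [dp_qb D _ _ hD]
  simp_rw [dp_qb D u1 u1 hD, Finset.mul_sum]
  rw [Finset.sum_comm]
  refine Finset.sum_congr rfl fun p hp => ?_
  have hp0 : (p : ℂ) ≠ 0 := by
    have := (Pool.Agent.Q14.UM.mem_PB hp).1.pos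
    exact_mod_cast this.ne'
  unfold ap u1
  rw [Finset.sum_mul, Finset.sum_div, Finset.sum_mul, ← Finset.sum_add_distrib]
  refine Finset.sum_congr rfl fun j _ => ?_
  have e1 : (p : ℂ) ^ (-(1 / 2 + ((t + α j : ℝ) : ℂ) * I)) =
      (p : ℂ) ^ (-(α j * I)) * (p : ℂ) ^ (-(1 / 2 + t * I)) := by
    rw [← Complex.cpow_add _ _ hp0]
    congr 1
    push_cast
    ring
  have e2 : (p : ℂ) ^ (-(1 + 2 * ((t + α j : ℝ) : ℂ) * I)) =
      (p : ℂ) ^ (-((2 * α j : ℝ) * I)) * (p : ℂ) ^ (-(1 + 2 * t * I)) := by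
    rw [← Complex.cpow_add _ _ hp0]
    congr 1
    push_cast
    ring
  rw [e1, e2]
  ring

/-- no block is large -/
def Reg (D κ A t : ℝ) : Prop := ∀ l < JB D, ‖zf D u1 u1 l t‖ ≤ R9 κ l / (10 * A)

/-- the truncated exponential at regular points -/
theorem reg_two {n : ℕ} {k α : Fin n → ℝ} {A κ D t : ℝ} (hA : 1 ≤ A) (hk : ∑ j, |k j| ≤ A) (hκ : 4 ≤ κ)
    (hD : 1 ≤ D) (h : ∀ j, Reg D κ A (t + α j)) :
    1 / 2 * Real.exp (∑ j, k j * EP ⌊Real.exp D⌋₊ (t + α j) - A * (2 * S3)) ≤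
        ‖Ef D κ (ap k α) (ap k fun j => 2 * α j) 0 t‖ ∧
      ‖Ef D κ (ap k α) (ap k fun j => 2 * α j) 0 t‖ ≤
        2 * Real.exp (∑ j, k j * EP ⌊Real.exp D⌋₊ (t + α j) + A * (2 * S3)) := by
  have hA0 : 0 < A := by linarith
  have h1 : ∀ l < JB D, ‖zf D (ap k α) (ap k fun j => 2 * α j) l t‖ ≤ R9 κ l / 10 := by
    intro l hl
    rw [zf_ap k α (by linarith) l t]
    refine (norm_sum_le _ _).trans ?_
    calc ∑ j, ‖(k j : ℂ) * zf D u1 u1 l (t + α j)‖ ≤ ∑ j, |k j| * (R9 κ l / (10 * A)) := by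
          refine Finset.sum_le_sum fun j _ => ?_
          rw [norm_mul, Complex.norm_real, Real.norm_eq_abs]
          exact mul_le_mul_of_nonneg_left (h j l hl) (abs_nonneg _)
      _ = (∑ j, |k j|) * (R9 κ l / (10 * A)) := by rw [Finset.sum_mul]
      _ ≤ A * (R9 κ l / (10 * A)) := mul_le_mul_of_nonneg_right hk (by positivity)
      _ = R9 κ l / 10 := by field_simp
  obtain ⟨h2, h3⟩ := ef_two hκ h1
  have h4 := abs_le.1 (sum_re k α hk hD t)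
  constructor
  · refine le_trans ?_ h2
    gcongr
    linarith [h4.2]
  · refine h3.trans ?_
    gcongr
    linarith [h4.1]

/-- length of the polynomials -/
lemma M9_le {δ κ T : ℝ} (hT : 0 < T) (hκ : 0 ≤ κ) (hδ : 0 ≤ δ) :
    (M9 (δ * Real.log T) κ : ℝ) ≤ T ^ (26 * κ * δ) := by
  unfold M9
  refine (Nat.floor_le (Real.exp_pos _).le).trans (le_of_eq ?_)
  rw [Real.rpow_def_of_pos hT]
  congr 1
  ring

/-- the isolated zeros which are regular, with the size of the derivative -/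
noncomputable def GG (d δ κ A W T : ℝ) : Finset ℂ := by
  classical
  exact (ZI d T).filter (fun s => |Real.log ‖deriv riemannZeta s‖ - Real.log (Real.log T) -
    EP ⌊T ^ δ⌋₊ s.im| ≤ W ∧ Reg (δ * Real.log T) κ A s.im)

/-- the mass outside -/
theorem out_zer {C C₁ d δ κ A W T θ : ℝ} (hδ : 0 < δ) (hκ : 4 ≤ κ) (hA : 1 ≤ A) (hW : 0 < W) (hC : 1 ≤ C)
    (hC₁ : 0 ≤ C₁) (hT1 : 1 ≤ T) (hD1 : 1 ≤ δ * Real.log T)
    (hblk : ∀ (κ D : ℝ) (a a2 f : ℕ → ℂ) (M J : ℕ), 1 ≤ κ → 1 ≤ D →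
      (∀ n, ‖a n‖ ≤ 1) → (∀ n, ‖a2 n‖ ≤ 1) → 1 ≤ M → Real.log M ≤ 28 * κ * D → (∀ n, M < n → f n = 0) →
      ∑ l ∈ Finset.range J, 1 / (R9 κ l : ℝ) ^ 2 * N2 (KB' D l * M) (cv (qb D a a2 l) f) ≤ C / κ * N2 M f)
    (hS : ∀ N : ℕ, (N : ℝ) ≤ T ^ θ → ∀ b : ℕ → ℂ, ∑ s ∈ ZI d T, ‖dp N b s.im‖ ^ 2 ≤
      2 * (Real.log T * (T * N2 N b)))
    (hTD : ∀ N : ℕ, (N : ℝ) ≤ T ^ θ → ∀ b : ℕ → ℂ,
      ∑ s ∈ ZI d T, |Real.log ‖deriv riemannZeta s‖ - Real.log (Real.log T) - EP ⌊T ^ δ⌋₊ s.im| ^ 1 *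
        ‖dp N b s.im‖ ^ 2 ≤ C₁ * Real.log T * (T * N2 N b)) (hθ : 30 * κ * δ ≤ θ)
    {M : ℕ} (hM1 : 1 ≤ M) (hM : (M : ℝ) ≤ T ^ (28 * κ * δ)) {f : ℕ → ℂ} (hf : ∀ n, M < n → f n = 0) :
    ∑ s ∈ ZI d T \ GG d δ κ A W T, ‖dp M f s.im‖ ^ 2 ≤
      (C₁ / W + 200 * A ^ 2 * C / κ) * (Real.log T * (T * N2 M f)) := by
  classical
  have hT0 : 0 < T := by linarith
  have hL0 : 0 ≤ Real.log T := Real.log_nonneg hT1
  set D := δ * Real.log T with hD
  have hD0 : 0 ≤ D := by linarith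
  have hA0 : 0 < A := by linarith
  have hκ0 : 0 < κ := by linarith
  have hn2 := N2_nonneg M f
  have hRp : ∀ l : ℕ, 0 < (R9 κ l : ℝ) := fun l => lt_of_lt_of_le (by positivity) (R9_ge κ l)
  set V : ℂ → ℝ := fun s => |Real.log ‖deriv riemannZeta s‖ - Real.log (Real.log T) - EP ⌊T ^ δ⌋₊ s.im| with hV
  have hpt : ∀ s ∈ ZI d T \ GG d δ κ A W T, ‖dp M f s.im‖ ^ 2 ≤ 1 / W * (V s ^ 1 * ‖dp M f s.im‖ ^ 2) +
      ∑ l ∈ Finset.range (JB D), 100 * A ^ 2 * (1 / (R9 κ l : ℝ) ^ 2) *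
        ‖dp (KB' D l * M) (cv (qb D u1 u1 l) f) s.im‖ ^ 2 := by
    intro s hs
    rw [Finset.mem_sdiff] at hs
    obtain ⟨hs1, hs2⟩ := hs
    have hnn : ∀ l ∈ Finset.range (JB D), 0 ≤ 100 * A ^ 2 * (1 / (R9 κ l : ℝ) ^ 2) *
        ‖dp (KB' D l * M) (cv (qb D u1 u1 l) f) s.im‖ ^ 2 := fun l _ => by positivity
    by_cases hVW : V s ≤ W
    · have h1 : ¬ Reg D κ A s.im := fun h => hs2 (by
        unfold GG
        rw [Finset.mem_filter]
        exact ⟨hs1, hVW, h⟩)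
      unfold Reg at h1
      push Not at h1
      obtain ⟨l, hl, hlt⟩ := h1
      have h2 : ‖zf D u1 u1 l s.im‖ ^ 2 * ‖dp M f s.im‖ ^ 2 =
          ‖dp (KB' D l * M) (cv (qb D u1 u1 l) f) s.im‖ ^ 2 := by
        rw [← Pool.Agent.Q84.UM.t_DPM.1 (KB' D l) M (qb D u1 u1 l) f s.im (qb_len D u1 u1 l hD0) hf, norm_mul, mul_pow]
        rfl
      have h3 : 1 ≤ 100 * A ^ 2 * (1 / (R9 κ l : ℝ) ^ 2) * ‖zf D u1 u1 l s.im‖ ^ 2 := by
        have h4 : (R9 κ l / (10 * A)) ^ 2 ≤ ‖zf D u1 u1 l s.im‖ ^ 2 :=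
          pow_le_pow_left₀ (by positivity) hlt.le 2
        have h5 : 100 * A ^ 2 * (1 / (R9 κ l : ℝ) ^ 2) * (R9 κ l / (10 * A)) ^ 2 = 1 := by
          have := (hRp l).ne'
          field_simp
          norm_num
        calc (1 : ℝ) = 100 * A ^ 2 * (1 / (R9 κ l : ℝ) ^ 2) * (R9 κ l / (10 * A)) ^ 2 := h5.symm
          _ ≤ _ := mul_le_mul_of_nonneg_left h4 (by positivity)
      have h6 : ‖dp M f s.im‖ ^ 2 ≤ 100 * A ^ 2 * (1 / (R9 κ l : ℝ) ^ 2) *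
          ‖dp (KB' D l * M) (cv (qb D u1 u1 l) f) s.im‖ ^ 2 := by
        rw [← h2, ← mul_assoc]
        exact le_mul_of_one_le_left (by positivity) h3
      have h7 := Finset.single_le_sum hnn (Finset.mem_range.2 hl)
      have h8 : 0 ≤ 1 / W * (V s ^ 1 * ‖dp M f s.im‖ ^ 2) := by
        have : 0 ≤ V s := abs_nonneg _
        positivity
      linarith
    · push Not at hVW
      have h1 : ‖dp M f s.im‖ ^ 2 ≤ 1 / W * (V s ^ 1 * ‖dp M f s.im‖ ^ 2) := by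
        rw [pow_one, ← mul_assoc]
        refine le_mul_of_one_le_left (by positivity) ?_
        rw [one_div, inv_mul_eq_div, one_le_div hW]
        exact hVW.le
      have h2 := Finset.sum_nonneg hnn
      linarith
  have hMθ : (M : ℝ) ≤ T ^ θ := hM.trans (Real.rpow_le_rpow_of_exponent_le hT1 (by nlinarith))
  have hKM : ∀ l, ((KB' D l * M : ℕ) : ℝ) ≤ T ^ θ := by
    intro l
    have h1 : (KB' D l : ℝ) ≤ T ^ (2 * δ) := by
      refine (KB_le D l).trans ?_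
      rw [Real.rpow_def_of_pos hT0]
      refine Real.exp_le_exp.2 ?_
      have : Real.exp (-(l : ℝ)) ≤ 1 := Real.exp_le_one_iff.2 (by simp)
      have h2 : 2 * D * Real.exp (-(l : ℝ)) ≤ 2 * D * 1 := mul_le_mul_of_nonneg_left this (by linarith)
      rw [hD] at h2 ⊢
      linarith
    push_cast
    calc (KB' D l : ℝ) * M ≤ T ^ (2 * δ) * T ^ (28 * κ * δ) :=
          mul_le_mul h1 hM (Nat.cast_nonneg _) (by positivity)
      _ = T ^ (2 * δ + 28 * κ * δ) := by rw [← Real.rpow_add hT0]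
      _ ≤ T ^ θ := Real.rpow_le_rpow_of_exponent_le hT1 (by nlinarith)
  have hsub : ZI d T \ GG d δ κ A W T ⊆ ZI d T := Finset.sdiff_subset
  have hlogM : Real.log M ≤ 28 * κ * D := by
    have hm1 : (1 : ℝ) ≤ (M : ℝ) := by exact_mod_cast hM1
    have := Real.log_le_log (by linarith) hM
    rw [Real.log_rpow hT0] at this
    rw [hD]
    linarith
  calc ∑ s ∈ ZI d T \ GG d δ κ A W T, ‖dp M f s.im‖ ^ 2
      ≤ ∑ s ∈ ZI d T \ GG d δ κ A W T, (1 / W * (V s ^ 1 * ‖dp M f s.im‖ ^ 2) +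
          ∑ l ∈ Finset.range (JB D), 100 * A ^ 2 * (1 / (R9 κ l : ℝ) ^ 2) *
            ‖dp (KB' D l * M) (cv (qb D u1 u1 l) f) s.im‖ ^ 2) := Finset.sum_le_sum hpt
    _ ≤ ∑ s ∈ ZI d T, (1 / W * (V s ^ 1 * ‖dp M f s.im‖ ^ 2) +
          ∑ l ∈ Finset.range (JB D), 100 * A ^ 2 * (1 / (R9 κ l : ℝ) ^ 2) *
            ‖dp (KB' D l * M) (cv (qb D u1 u1 l) f) s.im‖ ^ 2) := by
        refine Finset.sum_le_sum_of_subset_of_nonneg hsub fun s _ _ => ?_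
        have : 0 ≤ V s := abs_nonneg _
        positivity
    _ = 1 / W * ∑ s ∈ ZI d T, V s ^ 1 * ‖dp M f s.im‖ ^ 2 +
          ∑ l ∈ Finset.range (JB D), 100 * A ^ 2 * (1 / (R9 κ l : ℝ) ^ 2) *
            ∑ s ∈ ZI d T, ‖dp (KB' D l * M) (cv (qb D u1 u1 l) f) s.im‖ ^ 2 := by
        rw [Finset.sum_add_distrib, ← Finset.mul_sum, Finset.sum_comm]
        congr 1
        exact Finset.sum_congr rfl fun l _ => by rw [Finset.mul_sum]
    _ ≤ 1 / W * (C₁ * Real.log T * (T * N2 M f)) +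
          ∑ l ∈ Finset.range (JB D), 200 * A ^ 2 * (Real.log T * T) *
            (1 / (R9 κ l : ℝ) ^ 2 * N2 (KB' D l * M) (cv (qb D u1 u1 l) f)) := by
        refine add_le_add (mul_le_mul_of_nonneg_left (hTD M hMθ f) (by positivity)) ?_
        refine Finset.sum_le_sum fun l _ => ?_
        have := mul_le_mul_of_nonneg_left (hS (KB' D l * M) (hKM l) (cv (qb D u1 u1 l) f))
          (by positivity : 0 ≤ 100 * A ^ 2 * (1 / (R9 κ l : ℝ) ^ 2))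
        refine this.trans (le_of_eq ?_)
        ring
    _ ≤ 1 / W * (C₁ * Real.log T * (T * N2 M f)) + 200 * A ^ 2 * (Real.log T * T) * (C / κ * N2 M f) := by
        rw [← Finset.mul_sum]
        have h1 := hblk κ D u1 u1 f M (JB D) (by linarith) hD1 (fun n => by simp [u1]) (fun n => by simp [u1])
          hM1 hlogM hf
        have h2 : 0 ≤ 200 * A ^ 2 * (Real.log T * T) := by positivity
        have := mul_le_mul_of_nonneg_left h1 h2
        linarith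
    _ = _ := by ring

end Run7.h311.CM
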