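import Pool.Agent.Run7.h311.CM.Zer

set_option autoImplicit false

/-!
# Moments of all real orders over the regular isolated zeros, relative to every Dirichlet polynomial
-/

open Filter Topology MeasureTheory Complex
open Pool.Agent.Q97.UM

namespace Run7.h311.CM

open Pool.Agent.Q14.UM (KB' dp_qb sum_zj KB_le KB_one qb_len cv_len exp_neg_le exp_neg_mul_nat geo_le)
open Pool.Agent.Q98.UM (EP_PA S3 S3_nonneg norm_ap_le samp_upper mem_ZI cv_supp supp_zero deriv_ne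
  norm_ap_one prime_lower)

/-- `log ζ(1 + 1/log T) ≤ log log T + 1` -/
theorem zeta_near_one' : ∀ᶠ T : ℝ in atTop,
    Real.log ‖riemannZeta (1 + 1 / Real.log T + (0 : ℝ) * I)‖ ≤ Real.log (Real.log T) + 1 := by
  have h1 : Tendsto (fun T : ℝ => (1 + 1 / Real.log T + (0 : ℝ) * I : ℂ)) atTop (𝓝[≠] 1) := by
    rw [tendsto_nhdsWithin_iff]
    constructor
    · have h2 : Tendsto (fun T : ℝ => ((1 / Real.log T : ℝ) : ℂ)) atTop (𝓝 ((0 : ℝ) : ℂ)) := by
        have h3 : Tendsto (fun T : ℝ => 1 / Real.log T) atTop (𝓝 0) :=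
          tendsto_const_nhds.div_atTop Real.tendsto_log_atTop
        exact (Complex.continuous_ofReal.tendsto 0).comp h3
      have h4 := h2.const_add 1
      simp only [ofReal_zero, add_zero] at h4
      refine h4.congr fun T => ?_
      push_cast
      ring
    · filter_upwards [eventually_gt_atTop 1] with T hT
      have hL : Real.log T ≠ 0 := (Real.log_pos hT).ne'
      rw [Set.mem_compl_iff, Set.mem_singleton_iff]
      intro h
      have h5 := congrArg Complex.re h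
      simp at h5
      rcases h5 with h5 | h5 | h5
      · linarith
      · linarith
      · linarith
  have h6 := (riemannZeta_residue_one.comp h1).norm
  rw [norm_one] at h6
  have h7 : ∀ᶠ T : ℝ in atTop, ‖((1 + 1 / Real.log T + (0 : ℝ) * I : ℂ) - 1) *
      riemannZeta (1 + 1 / Real.log T + (0 : ℝ) * I)‖ < Real.exp 1 := by
    refine h6.eventually_lt_const ?_
    exact Real.one_lt_exp_iff.mpr one_pos
  filter_upwards [h7, eventually_gt_atTop (Real.exp 1)] with T h8 hT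
  have hT1 : 1 < T := lt_trans (Real.one_lt_exp_iff.mpr one_pos) hT
  have hL : 0 < Real.log T := Real.log_pos hT1
  have h9 : ((1 + 1 / Real.log T + (0 : ℝ) * I : ℂ) - 1) = ((1 / Real.log T : ℝ) : ℂ) := by
    push_cast
    ring
  rw [h9, norm_mul, Complex.norm_real, Real.norm_eq_abs, abs_of_pos (by positivity)] at h8
  have h10 : ‖riemannZeta (1 + 1 / Real.log T + (0 : ℝ) * I)‖ < Real.exp 1 * Real.log T := by
    have h11 : 1 / Real.log T * ‖riemannZeta (1 + 1 / Real.log T + (0 : ℝ) * I)‖ * Real.log T =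
        ‖riemannZeta (1 + 1 / Real.log T + (0 : ℝ) * I)‖ := by
      field_simp
    rw [← h11]
    exact mul_lt_mul_of_pos_right h8 hL
  rcases eq_or_lt_of_le (norm_nonneg (riemannZeta (1 + 1 / Real.log T + (0 : ℝ) * I))) with h0 | h0
  · rw [← h0, Real.log_zero]
    have h12 : 1 < Real.log T := (Real.lt_log_iff_exp_lt (by linarith)).2 hT
    have := Real.log_pos h12
    linarith
  · have h12 := Real.log_le_log h0 h10.le
    rw [Real.log_mul (Real.exp_pos _).ne' hL.ne', Real.log_exp] at h12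
    linarith

/-- the sum of the inverses of the primes -/
theorem prime_two {δ : ℝ} (hδ : 0 < δ) (hδ1 : δ ≤ 1) : ∃ C : ℝ, 0 ≤ C ∧
    ∀ᶠ T : ℝ in atTop, |(∑ p ∈ (Finset.Icc 1 ⌊T ^ δ⌋₊).filter Nat.Prime, (1 : ℝ) / p) -
      Real.log (Real.log T)| ≤ C := by
  obtain ⟨C₁, hC₁, h1⟩ := prime_lower Pool.Agent.Q149.UM.t_MZ hδ hδ1
  obtain ⟨C, hC⟩ := Pool.Agent.Q149.UM.t_MZ δ hδ hδ1
  refine ⟨max C₁ (max C 0 + 1), by positivity, ?_⟩
  filter_upwards [hC, zeta_near_one', h1] with T h2 h3 h4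
  have h5 := (abs_le.mp (h2 0)).2
  simp only [zero_mul, Real.cos_zero] at h5
  simp only [ofReal_zero, zero_mul, add_zero] at h3 h5
  rw [abs_le]
  have := le_max_left C 0
  constructor
  · have := le_max_left C₁ (max C 0 + 1)
    linarith
  · have := le_max_right C₁ (max C 0 + 1)
    linarith

/-- the data of the theorem for the zeros -/
structure ZD' (A ε d δ κ W c C T : ℝ) : Prop where
  share : ∀ N : ℕ, (N : ℝ) ≤ T ^ δ → ∀ b : ℕ → ℂ, (∀ n, b n ≠ 0 → 1 ≤ n ∧ n ≤ N) →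
    (2 - H370.cMTinv - ε) * (Real.log T / (2 * Real.pi)) * (T * N2 N b) ≤
      ∑ s ∈ GG d δ κ A W T, ‖dp N b s.im‖ ^ 2
  upper : ∀ N : ℕ, (N : ℝ) ≤ T ^ δ → ∀ b : ℕ → ℂ,
    ∑ s ∈ ZI d T, ‖dp N b s.im‖ ^ 2 ≤ 2 * (Real.log T * (T * N2 N b))
  low : ∀ lam : ℝ, |lam| ≤ A → c * Real.log T ^ (lam ^ 2) ≤
    N2 (M9 (δ * Real.log T) κ) (ebk (δ * Real.log T) κ (ap (fun _ : Fin 1 => lam) fun _ => 0)
      (ap (fun _ : Fin 1 => lam) fun _ => 2 * 0) 0 (JB (δ * Real.log T)))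
  high : ∀ lam : ℝ, |lam| ≤ A →
    N2 (M9 (δ * Real.log T) κ) (ebk (δ * Real.log T) κ (ap (fun _ : Fin 1 => lam) fun _ => 0)
      (ap (fun _ : Fin 1 => lam) fun _ => 2 * 0) 0 (JB (δ * Real.log T))) ≤ C * Real.log T ^ (lam ^ 2)
  mom : ∀ lam : ℝ, |lam| ≤ A → ∀ N : ℕ, (N : ℝ) ≤ T ^ δ → ∀ b : ℕ → ℂ, (∀ n, b n ≠ 0 → 1 ≤ n ∧ n ≤ N) →
    c * Real.log T ^ (1 + 2 * lam) * (T * N2 (M9 (δ * Real.log T) κ * N)
        (cv (ebk (δ * Real.log T) κ (ap (fun _ : Fin 1 => lam) fun _ => 0)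
          (ap (fun _ : Fin 1 => lam) fun _ => 2 * 0) 0 (JB (δ * Real.log T))) b)) ≤
      ∑ s ∈ GG d δ κ A W T, ‖deriv riemannZeta s‖ ^ (2 * lam) * ‖dp N b s.im‖ ^ 2 ∧
    ∑ s ∈ GG d δ κ A W T, ‖deriv riemannZeta s‖ ^ (2 * lam) * ‖dp N b s.im‖ ^ 2 ≤
      C * Real.log T ^ (1 + 2 * lam) * (T * N2 (M9 (δ * Real.log T) κ * N)
        (cv (ebk (δ * Real.log T) κ (ap (fun _ : Fin 1 => lam) fun _ => 0)
          (ap (fun _ : Fin 1 => lam) fun _ => 2 * 0) 0 (JB (δ * Real.log T))) b))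

theorem zer_main (A ε : ℝ) (hA : 1 ≤ A) (hε : 0 < ε) (hε1 : ε ≤ 1 / 10) : ∃ d δ κ W c C : ℝ, 0 < d ∧ 0 < δ ∧
    4 ≤ κ ∧ 28 * κ * δ ≤ 1 / 8 ∧ 0 < W ∧ 0 < c ∧ 0 < C ∧ ∀ᶠ T : ℝ in atTop, ZD' A ε d δ κ W c C T := by
  obtain ⟨d, θ₁, hd, -, hθ₁, -, hSI⟩ := b_SAMPI (ε / 4) (by positivity)
  obtain ⟨θ₂, hθ₂, -, hS⟩ := b_SAMP 1 one_pos
  obtain ⟨θ₃, δ₀, hθ₃, hδ₀, hTD⟩ := b_THD 1
  obtain ⟨C₀, hC₀, hblk⟩ := blk_sum
  obtain ⟨κ₀, hκ₀, c₂, C₂, hc₂, hC₂, hEN⟩ := b_EN2 A hA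
  obtain ⟨κ, hκ4, hκκ, hκε⟩ : ∃ κ : ℝ, 4 ≤ κ ∧ κ₀ ≤ κ ∧ 200 * A ^ 2 * C₀ / κ ≤ ε / 20 := by
    refine ⟨max κ₀ (4000 * A ^ 2 * C₀ / ε), hκ₀.trans (le_max_left _ _), le_max_left _ _, ?_⟩
    have h1 : 0 < max κ₀ (4000 * A ^ 2 * C₀ / ε) := lt_of_lt_of_le (by linarith) (le_max_left _ _)
    rw [div_le_iff₀ h1]
    have h2 := le_max_right κ₀ (4000 * A ^ 2 * C₀ / ε)
    have h3 : ε / 20 * (4000 * A ^ 2 * C₀ / ε) = 200 * A ^ 2 * C₀ := by
      field_simp
      norm_num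
    rw [← h3]
    exact mul_le_mul_of_nonneg_left h2 (by positivity)
  have hκ0 : 0 < κ := by linarith
  obtain ⟨θ, hθ0, hθ40, hθa, hθb, hθc⟩ : ∃ θ : ℝ, 0 < θ ∧ θ ≤ 1 / 8 ∧ θ ≤ θ₁ ∧ θ ≤ θ₂ ∧ θ ≤ θ₃ :=
    ⟨min (1 / 8) (min θ₁ (min θ₂ θ₃)), by positivity, min_le_left _ _,
      (min_le_right _ _).trans (min_le_left _ _), (min_le_right _ _).trans ((min_le_right _ _).trans (min_le_left _ _)),
      (min_le_right _ _).trans ((min_le_right _ _).trans (min_le_right _ _))⟩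
  obtain ⟨δ, hδ, hδ1, hδ2⟩ : ∃ δ : ℝ, 0 < δ ∧ 30 * κ * δ ≤ θ ∧ δ ≤ δ₀ := by
    refine ⟨min (θ / (30 * κ)) δ₀, by positivity, ?_, min_le_right _ _⟩
    calc 30 * κ * min (θ / (30 * κ)) δ₀ ≤ 30 * κ * (θ / (30 * κ)) :=
          mul_le_mul_of_nonneg_left (min_le_left _ _) (by positivity)
      _ = θ := by field_simp
  have hδ1' : δ ≤ 1 := by nlinarith
  obtain ⟨C₁, hC₁, hTD⟩ := hTD δ d hδ hδ2 hd
  obtain ⟨C₃, hC₃, hPR⟩ := prime_two hδ hδ1'
  obtain ⟨W, hW, hWε⟩ : ∃ W : ℝ, 0 < W ∧ C₁ / W ≤ ε / 20 := by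
    refine ⟨20 * C₁ / ε + 1, by positivity, ?_⟩
    rw [div_le_iff₀ (by positivity)]
    have : ε / 20 * (20 * C₁ / ε + 1) = C₁ + ε / 20 := by field_simp
    linarith
  have hS3 := S3_nonneg
  set K : ℝ := 2 * A * W + 4 * A * S3 with hK
  have hK0 : 0 ≤ K := by positivity
  refine ⟨d, δ, κ, W, min (c₂ * Real.exp (-(A ^ 2 * C₃))) (Real.exp (-K) / 80),
    max (C₂ * Real.exp (A ^ 2 * C₃)) (8 * Real.exp K) + 1, hd, hδ, hκ4, by nlinarith, hW, by positivity,
    by positivity, ?_⟩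
  filter_upwards [hSI, hS, hTD, hPR, eventually_ge_atTop (Real.exp 1), eventually_ge_atTop 1,
    (Real.tendsto_log_atTop.eventually_ge_atTop (1 / δ))]
    with T hSI hS hTD hPR hTe hT1 hLδ
  have hT0 : 0 < T := by linarith
  have hL1 : 1 ≤ Real.log T := (Real.le_log_iff_exp_le hT0).mpr hTe
  have hL0 : 0 < Real.log T := by linarith
  have hD1 : 1 ≤ δ * Real.log T := by
    rw [div_le_iff₀ hδ] at hLδ
    linarith
  set D := δ * Real.log T with hD
  have hTδ : T ^ δ = Real.exp D := by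
    rw [Real.rpow_def_of_pos hT0, hD, mul_comm]
  have hmono : ∀ {x y : ℝ}, x ≤ y → T ^ x ≤ T ^ y := fun h => Real.rpow_le_rpow_of_exponent_le hT1 h
  have hS' : ∀ N : ℕ, (N : ℝ) ≤ T ^ θ → ∀ b : ℕ → ℂ, ∑ s ∈ ZI d T, ‖dp N b s.im‖ ^ 2 ≤
      2 * (Real.log T * (T * N2 N b)) := fun N hN b =>
    samp_upper hT0.le hL0.le ((hS N (hN.trans (hmono hθb)) b).2.2) d
  have hTD' : ∀ N : ℕ, (N : ℝ) ≤ T ^ θ → ∀ b : ℕ → ℂ,
      ∑ s ∈ ZI d T, |Real.log ‖deriv riemannZeta s‖ - Real.log (Real.log T) - EP ⌊T ^ δ⌋₊ s.im| ^ 1 *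
        ‖dp N b s.im‖ ^ 2 ≤ C₁ * Real.log T * (T * N2 N b) := fun N hN b =>
    (hTD N (hN.trans (hmono hθc)) b).1
  -- the share, for longer polynomials
  have hshare : ∀ (M : ℕ) (f : ℕ → ℂ), (M : ℝ) ≤ T ^ (28 * κ * δ) → (∀ n, M < n → f n = 0) →
      (2 - H370.cMTinv - ε) * (Real.log T / (2 * Real.pi)) * (T * N2 M f) ≤
        ∑ s ∈ GG d δ κ A W T, ‖dp M f s.im‖ ^ 2 := by
    classical
    intro M f hM hf
    rcases Nat.eq_zero_or_pos M with h0 | hM1
    · subst h0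
      have : N2 0 f = 0 := by unfold N2; simp
      rw [this]
      simp only [mul_zero]
      exact Finset.sum_nonneg fun s _ => by positivity
    have h1 := hSI M (hM.trans (hmono (by nlinarith))) f
    have h2 := out_zer (θ := θ) hδ hκ4 hA hW hC₀ hC₁ hT1 hD1 hblk hS' hTD' hδ1 hM1 hM hf
    have hsub : GG d δ κ A W T ⊆ ZI d T := by
      unfold GG
      exact Finset.filter_subset _ _
    have h3 := Finset.sum_sdiff (f := fun s => ‖dp M f s.im‖ ^ 2) hsub
    have hΛ : 0 ≤ Real.log T * (T * N2 M f) := mul_nonneg hL0.le (mul_nonneg hT0.le (N2_nonneg _ _))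
    have h4 : (C₁ / W + 200 * A ^ 2 * C₀ / κ) * (Real.log T * (T * N2 M f)) ≤
        ε / 10 * (Real.log T * (T * N2 M f)) := mul_le_mul_of_nonneg_right (by linarith) hΛ
    have hpi := Real.pi_pos
    have hpi2 := Real.pi_lt_d2
    have h5 : ε / 10 ≤ (3 / 4 * ε) / (2 * Real.pi) := by
      rw [le_div_iff₀ (by positivity)]
      nlinarith
    have h6 : ε / 10 * (Real.log T * (T * N2 M f)) ≤ (3 / 4 * ε) / (2 * Real.pi) * (Real.log T * (T * N2 M f)) :=
      mul_le_mul_of_nonneg_right h5 hΛ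
    have e1 : (2 - H370.cMTinv - ε) * (Real.log T / (2 * Real.pi)) * (T * N2 M f) =
        (2 - H370.cMTinv - ε / 4) * (Real.log T / (2 * Real.pi)) * (T * N2 M f) -
          (3 / 4 * ε) / (2 * Real.pi) * (Real.log T * (T * N2 M f)) := by ring
    rw [e1]
    linarith
  have h28 : T ^ δ ≤ T ^ (28 * κ * δ) := hmono (by nlinarith)
  refine ⟨fun N hN b hb => hshare N b (hN.trans h28) (supp_zero hb),
    fun N hN b => hS' N (hN.trans (hmono (by nlinarith))) b, ?_, ?_, ?_⟩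
  · intro lam hlam
    refine le_trans ?_ (hEN κ D _ _ hκκ hD1 (norm_ap_le (fun _ : Fin 1 => lam) (fun _ => 0) (by simpa using hlam))
      (norm_ap_le (fun _ : Fin 1 => lam) (fun _ => 2 * 0) (by simpa using hlam))).1
    have e1 : ∑ p ∈ (Finset.Icc 1 ⌊Real.exp D⌋₊).filter Nat.Prime, ‖ap (fun _ : Fin 1 => lam) (fun _ => 0) p‖ ^ 2 / (p : ℝ) =
        lam ^ 2 * ∑ p ∈ (Finset.Icc 1 ⌊Real.exp D⌋₊).filter Nat.Prime, (1 : ℝ) / p := by
      rw [Finset.mul_sum]
      refine Finset.sum_congr rfl fun p _ => ?_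
      rw [norm_ap_one, sq_abs]
      ring
    rw [e1, ← hTδ]
    have hlam2 : lam ^ 2 ≤ A ^ 2 := by
      rw [← sq_abs lam]
      exact pow_le_pow_left₀ (abs_nonneg _) hlam 2
    have e3 : lam ^ 2 * Real.log (Real.log T) - A ^ 2 * C₃ ≤
        lam ^ 2 * ∑ p ∈ (Finset.Icc 1 ⌊T ^ δ⌋₊).filter Nat.Prime, (1 : ℝ) / p := by
      have u1 := mul_le_mul_of_nonneg_left (abs_le.1 hPR).1 (sq_nonneg lam)
      have u2 := mul_le_mul_of_nonneg_right hlam2 hC₃
      linarith
    calc min (c₂ * Real.exp (-(A ^ 2 * C₃))) (Real.exp (-K) / 80) * Real.log T ^ (lam ^ 2)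
        ≤ c₂ * Real.exp (-(A ^ 2 * C₃)) * Real.log T ^ (lam ^ 2) :=
          mul_le_mul_of_nonneg_right (min_le_left _ _) (by positivity)
      _ = c₂ * Real.exp (lam ^ 2 * Real.log (Real.log T) - A ^ 2 * C₃) := by
          rw [Real.rpow_def_of_pos hL0, mul_comm (Real.log (Real.log T)), Real.exp_sub, Real.exp_neg]
          ring
      _ ≤ _ := mul_le_mul_of_nonneg_left (Real.exp_le_exp.mpr e3) hc₂.le
  · intro lam hlam
    refine le_trans (hEN κ D _ _ hκκ hD1 (norm_ap_le (fun _ : Fin 1 => lam) (fun _ => 0) (by simpa using hlam))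
      (norm_ap_le (fun _ : Fin 1 => lam) (fun _ => 2 * 0) (by simpa using hlam))).2 ?_
    have e1 : ∑ p ∈ (Finset.Icc 1 ⌊Real.exp D⌋₊).filter Nat.Prime, ‖ap (fun _ : Fin 1 => lam) (fun _ => 0) p‖ ^ 2 / (p : ℝ) =
        lam ^ 2 * ∑ p ∈ (Finset.Icc 1 ⌊Real.exp D⌋₊).filter Nat.Prime, (1 : ℝ) / p := by
      rw [Finset.mul_sum]
      refine Finset.sum_congr rfl fun p _ => ?_
      rw [norm_ap_one, sq_abs]
      ring
    rw [e1, ← hTδ]
    have hlam2 : lam ^ 2 ≤ A ^ 2 := by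
      rw [← sq_abs lam]
      exact pow_le_pow_left₀ (abs_nonneg _) hlam 2
    have e3 : lam ^ 2 * ∑ p ∈ (Finset.Icc 1 ⌊T ^ δ⌋₊).filter Nat.Prime, (1 : ℝ) / p ≤
        lam ^ 2 * Real.log (Real.log T) + A ^ 2 * C₃ := by
      have u1 := mul_le_mul_of_nonneg_left (abs_le.1 hPR).2 (sq_nonneg lam)
      have u2 := mul_le_mul_of_nonneg_right hlam2 hC₃
      linarith
    calc C₂ * Real.exp (lam ^ 2 * ∑ p ∈ (Finset.Icc 1 ⌊T ^ δ⌋₊).filter Nat.Prime, (1 : ℝ) / p)
        ≤ C₂ * Real.exp (lam ^ 2 * Real.log (Real.log T) + A ^ 2 * C₃) :=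
          mul_le_mul_of_nonneg_left (Real.exp_le_exp.mpr e3) hC₂
      _ = C₂ * Real.exp (A ^ 2 * C₃) * Real.log T ^ (lam ^ 2) := by
          rw [Real.rpow_def_of_pos hL0, mul_comm (Real.log (Real.log T)), Real.exp_add]
          ring
      _ ≤ (max (C₂ * Real.exp (A ^ 2 * C₃)) (8 * Real.exp K) + 1) * Real.log T ^ (lam ^ 2) := by
          refine mul_le_mul_of_nonneg_right ?_ (by positivity)
          linarith [le_max_left (C₂ * Real.exp (A ^ 2 * C₃)) (8 * Real.exp K)]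
  · intro lam hlam N hN b hb
    set e : ℕ → ℂ := ebk D κ (ap (fun _ : Fin 1 => lam) fun _ => 0) (ap (fun _ : Fin 1 => lam) fun _ => 2 * 0) 0 (JB D)
      with he
    have hcof := b_COF κ D (by linarith) hD1 (ap (fun _ : Fin 1 => lam) fun _ => 0)
      (ap (fun _ : Fin 1 => lam) fun _ => 2 * 0) u1 u1 0 0
    rw [Nat.sub_zero] at hcof
    have hes := hcof.1
    have hed := hcof.2.1
    rw [← he] at hes hed
    set M := M9 D κ with hM
    have hML : (M : ℝ) ≤ T ^ (26 * κ * δ) := M9_le hT0 hκ0.le hδ.le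
    have hMN : ((M * N : ℕ) : ℝ) ≤ T ^ (28 * κ * δ) := by
      push_cast
      calc (M : ℝ) * N ≤ T ^ (26 * κ * δ) * T ^ δ := mul_le_mul hML hN (Nat.cast_nonneg _) (by positivity)
        _ = T ^ (26 * κ * δ + δ) := by rw [← Real.rpow_add hT0]
        _ ≤ _ := hmono (by nlinarith)
    set f : ℕ → ℂ := cv e b with hf
    have hfs : ∀ m, f m ≠ 0 → 1 ≤ m ∧ m ≤ M * N := cv_supp hes hb
    have hFeq : ∀ t, ‖dp M e t‖ ^ 2 * ‖dp N b t‖ ^ 2 = ‖dp (M * N) f t‖ ^ 2 := fun t => by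
      rw [← Pool.Agent.Q84.UM.t_DPM.1 M N e b t (supp_zero hes) (supp_zero hb), norm_mul, mul_pow]
    set Λ : ℝ := Real.log T * (T * N2 (M * N) f) with hΛ
    have hΛ0 : 0 ≤ Λ := mul_nonneg hL0.le (mul_nonneg hT0.le (N2_nonneg _ _))
    -- the pointwise comparison
    have hpt : ∀ s ∈ GG d δ κ A W T, Real.exp (-K) / 4 * (Real.log T ^ (2 * lam) * ‖dp M e s.im‖ ^ 2) ≤
        ‖deriv riemannZeta s‖ ^ (2 * lam) ∧
        ‖deriv riemannZeta s‖ ^ (2 * lam) ≤ 4 * Real.exp K * (Real.log T ^ (2 * lam) * ‖dp M e s.im‖ ^ 2) := by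
      classical
      intro s hs
      unfold GG at hs
      rw [Finset.mem_filter] at hs
      obtain ⟨hs1, hs2, hs3⟩ := hs
      obtain ⟨-, hre, hmz⟩ := mem_ZI hs1
      have hder : 0 < ‖deriv riemannZeta s‖ := norm_pos_iff.mpr (deriv_ne hre hmz)
      rw [← hD] at hs3
      obtain ⟨g1, g2⟩ := reg_two (k := fun _ : Fin 1 => lam) (α := fun _ => 0) hA (by simpa using hlam) hκ4 hD1
        (fun _ => by simpa using hs3)
      rw [Fin.sum_univ_one, add_zero, ← hTδ] at g1 g2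
      rw [hed]
      set E := ‖Ef D κ (ap (fun _ : Fin 1 => lam) fun _ => 0) (ap (fun _ : Fin 1 => lam) fun _ => 2 * 0) 0 s.im‖ with hE
      set x := EP ⌊T ^ δ⌋₊ s.im with hx
      set v := Real.log ‖deriv riemannZeta s‖ - Real.log (Real.log T) - x with hv
      have hE2a : 1 / 4 * Real.exp (2 * (lam * x) - 4 * A * S3) ≤ E ^ 2 := by
        have := pow_le_pow_left₀ (by positivity) g1 2
        rw [mul_pow, ← Real.exp_nat_mul] at this
        refine le_trans (le_of_eq ?_) this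
        norm_num
        ring_nf
      have hE2b : E ^ 2 ≤ 4 * Real.exp (2 * (lam * x) + 4 * A * S3) := by
        have := pow_le_pow_left₀ (norm_nonneg _) g2 2
        rw [mul_pow, ← Real.exp_nat_mul] at this
        refine le_trans this (le_of_eq ?_)
        norm_num
        ring_nf
      have hz : ‖deriv riemannZeta s‖ ^ (2 * lam) = Real.log T ^ (2 * lam) * Real.exp (2 * (lam * x) + 2 * lam * v) := by
        rw [Real.rpow_def_of_pos hder, Real.rpow_def_of_pos hL0, ← Real.exp_add]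
        congr 1
        rw [hv]
        ring
      have hv2 : |2 * lam * v| ≤ 2 * A * W := by
        rw [abs_mul, abs_mul, abs_two]
        have := mul_le_mul hlam hs2 (abs_nonneg _) (by linarith)
        nlinarith
      have hv3 := abs_le.1 hv2
      have hLp : 0 ≤ Real.log T ^ (2 * lam) := by positivity
      rw [hz]
      constructor
      · calc Real.exp (-K) / 4 * (Real.log T ^ (2 * lam) * E ^ 2)
            ≤ Real.exp (-K) / 4 * (Real.log T ^ (2 * lam) * (4 * Real.exp (2 * (lam * x) + 4 * A * S3))) := by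
              gcongr
          _ = Real.log T ^ (2 * lam) * Real.exp (2 * (lam * x) - 2 * A * W) := by
              rw [hK]
              have : Real.exp (2 * (lam * x) - 2 * A * W) = Real.exp (-(2 * A * W + 4 * A * S3)) *
                  Real.exp (2 * (lam * x) + 4 * A * S3) := by
                rw [← Real.exp_add]
                congr 1
                ring
              rw [this]
              ring
          _ ≤ _ := by
              refine mul_le_mul_of_nonneg_left (Real.exp_le_exp.2 ?_) hLp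
              linarith [hv3.1]
      · calc Real.log T ^ (2 * lam) * Real.exp (2 * (lam * x) + 2 * lam * v)
            ≤ Real.log T ^ (2 * lam) * Real.exp (2 * (lam * x) + 2 * A * W) := by
              refine mul_le_mul_of_nonneg_left (Real.exp_le_exp.2 ?_) hLp
              linarith [hv3.2]
          _ = 4 * Real.exp K * (Real.log T ^ (2 * lam) * (1 / 4 * Real.exp (2 * (lam * x) - 4 * A * S3))) := by
              rw [hK]
              have : Real.exp (2 * (lam * x) + 2 * A * W) = Real.exp (2 * A * W + 4 * A * S3) *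
                  Real.exp (2 * (lam * x) - 4 * A * S3) := by
                rw [← Real.exp_add]
                congr 1
                ring
              rw [this]
              ring
          _ ≤ _ := by gcongr
    have e5 : Real.log T ^ (1 + 2 * lam) = Real.log T * Real.log T ^ (2 * lam) := by
      rw [Real.rpow_add hL0, Real.rpow_one]
    have hLp : 0 ≤ Real.log T ^ (2 * lam) := by positivity
    constructor
    · have h1 := hshare (M * N) f hMN (supp_zero hfs)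
      have h2 : 1 / 20 * Λ ≤ ∑ s ∈ GG d δ κ A W T, ‖dp (M * N) f s.im‖ ^ 2 := by
        refine le_trans ?_ h1
        have h1 : 2 / 5 ≤ 2 - H370.cMTinv - ε := by
          have := H370.cMTinv_lt
          linarith
        have h2 : (2 - H370.cMTinv - ε) * (Real.log T / (2 * Real.pi)) * (T * N2 (M * N) f) =
            (2 - H370.cMTinv - ε) / (2 * Real.pi) * Λ := by rw [hΛ]; ring
        rw [h2]
        refine mul_le_mul_of_nonneg_right ?_ hΛ0
        rw [le_div_iff₀ (by positivity)]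
        have := Real.pi_lt_d2
        linarith
      calc min (c₂ * Real.exp (-(A ^ 2 * C₃))) (Real.exp (-K) / 80) * Real.log T ^ (1 + 2 * lam) *
            (T * N2 (M * N) f)
          ≤ Real.exp (-K) / 80 * Real.log T ^ (1 + 2 * lam) * (T * N2 (M * N) f) := by
            have h7 := min_le_right (c₂ * Real.exp (-(A ^ 2 * C₃))) (Real.exp (-K) / 80)
            have h8 : 0 ≤ Real.log T ^ (1 + 2 * lam) * (T * N2 (M * N) f) :=
              mul_nonneg (by positivity) (mul_nonneg hT0.le (N2_nonneg _ _))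
            have := mul_le_mul_of_nonneg_right h7 h8
            linarith
        _ = Real.exp (-K) / 4 * Real.log T ^ (2 * lam) * (1 / 20 * Λ) := by
            rw [e5, hΛ]
            ring
        _ ≤ Real.exp (-K) / 4 * Real.log T ^ (2 * lam) * ∑ s ∈ GG d δ κ A W T, ‖dp (M * N) f s.im‖ ^ 2 :=
            mul_le_mul_of_nonneg_left h2 (by positivity)
        _ = ∑ s ∈ GG d δ κ A W T, Real.exp (-K) / 4 * (Real.log T ^ (2 * lam) * ‖dp M e s.im‖ ^ 2) *
              ‖dp N b s.im‖ ^ 2 := by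
            rw [Finset.mul_sum]
            refine Finset.sum_congr rfl fun s _ => ?_
            rw [← hFeq]
            ring
        _ ≤ _ := Finset.sum_le_sum fun s hs => mul_le_mul_of_nonneg_right (hpt s hs).1 (by positivity)
    · have hsub : GG d δ κ A W T ⊆ ZI d T := by
        classical
        unfold GG
        exact Finset.filter_subset _ _
      have h1 : ∑ s ∈ GG d δ κ A W T, ‖dp (M * N) f s.im‖ ^ 2 ≤ 2 * Λ :=
        (Finset.sum_le_sum_of_subset_of_nonneg hsub fun s _ _ => by positivity).trans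
          (hS' (M * N) (hMN.trans (hmono (by nlinarith))) f)
      calc ∑ s ∈ GG d δ κ A W T, ‖deriv riemannZeta s‖ ^ (2 * lam) * ‖dp N b s.im‖ ^ 2
          ≤ ∑ s ∈ GG d δ κ A W T, 4 * Real.exp K * (Real.log T ^ (2 * lam) * ‖dp M e s.im‖ ^ 2) *
              ‖dp N b s.im‖ ^ 2 :=
            Finset.sum_le_sum fun s hs => mul_le_mul_of_nonneg_right (hpt s hs).2 (by positivity)
        _ = 4 * Real.exp K * Real.log T ^ (2 * lam) * ∑ s ∈ GG d δ κ A W T, ‖dp (M * N) f s.im‖ ^ 2 := by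
            rw [Finset.mul_sum]
            refine Finset.sum_congr rfl fun s _ => ?_
            rw [← hFeq]
            ring
        _ ≤ 4 * Real.exp K * Real.log T ^ (2 * lam) * (2 * Λ) := mul_le_mul_of_nonneg_left h1 (by positivity)
        _ = 8 * Real.exp K * Real.log T ^ (1 + 2 * lam) * (T * N2 (M * N) f) := by
            rw [e5, hΛ]
            ring
        _ ≤ _ := by
            have h7 := le_max_right (C₂ * Real.exp (A ^ 2 * C₃)) (8 * Real.exp K)
            have h8 : 0 ≤ Real.log T ^ (1 + 2 * lam) * (T * N2 (M * N) f) :=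
              mul_nonneg (by positivity) (mul_nonneg hT0.le (N2_nonneg _ _))
            have := mul_le_mul_of_nonneg_right (h7.trans (by linarith :
              max (C₂ * Real.exp (A ^ 2 * C₃)) (8 * Real.exp K) ≤
              max (C₂ * Real.exp (A ^ 2 * C₃)) (8 * Real.exp K) + 1)) h8
            linarith

end Run7.h311.CM
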